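import Mathlib

namespace Pool.Agent.LibTuza

open Finset

/-- LP duality for fractional matchings and covers of a finite hypergraph. -/
theorem lp_duality {E ι : Type*} [Fintype E] [Fintype ι] [DecidableEq E] [DecidableEq ι]
    (S : ι → Finset E) (I : Finset ι) (hne : ∀ i ∈ I, (S i).Nonempty) (τ : ℝ)
    (h : ∀ w : E → ℝ, (∀ e, 0 ≤ w e) → (∀ i ∈ I, 1 ≤ ∑ e ∈ S i, w e) → τ ≤ ∑ e, w e) :
    ∃ y : ι → ℝ, (∀ i, 0 ≤ y i) ∧ (∀ i, i ∉ I → y i = 0) ∧
      (∀ e, ∑ i ∈ I with e ∈ S i, y i ≤ 1) ∧ τ ≤ ∑ i ∈ I, y i := by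
  classical
  rcases isEmpty_or_nonempty E with hE | hE
  · have hI : ∀ i ∈ I, False := fun i hi => by
      obtain ⟨e, _⟩ := hne i hi
      exact hE.false e
    refine ⟨fun _ => 0, fun _ => le_rfl, fun _ _ => rfl, fun e => (hE.false e).elim, ?_⟩
    have := h (fun _ => 0) (fun _ => le_rfl) (fun i hi => (hI i hi).elim)
    simpa using this
  -- the linear map
  let deg : (ι → ℝ) → E → ℝ := fun y e => ∑ i ∈ I with e ∈ S i, y i
  let Φ : (ι → ℝ) → (E → ℝ) × ℝ := fun y => (fun e => 1 - deg y e, ∑ i ∈ I, y i - τ)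
  let C : Set (ι → ℝ) := Set.Icc 0 1
  let K : Set ((E → ℝ) × ℝ) := Φ '' C
  let Q : Set ((E → ℝ) × ℝ) := Set.Ici 0
  have hΦc : Continuous Φ := by
    refine Continuous.prodMk ?_ ?_
    · refine continuous_pi (fun e => ?_)
      refine continuous_const.sub ?_
      exact continuous_finsetSum _ (fun i _ => continuous_apply i)
    · exact (continuous_finsetSum _ (fun i _ => continuous_apply i)).sub continuous_const
  have hCc : IsCompact C := isCompact_Icc
  have hCconv : Convex ℝ C := convex_Icc 0 1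
  have hKc : IsCompact K := hCc.image hΦc
  have hKconv : Convex ℝ K := by
    rintro _ ⟨y, hy, rfl⟩ _ ⟨z, hz, rfl⟩ a b ha hb hab
    refine ⟨a • y + b • z, hCconv hy hz ha hb hab, ?_⟩
    ext e
    · simp only [Φ, deg, Prod.fst_add, Prod.smul_fst, Pi.add_apply, Pi.smul_apply, smul_eq_mul,
        Finset.sum_add_distrib, ← Finset.mul_sum]
      linear_combination (-1 : ℝ) * (1 : ℝ) * (hab)
    · simp only [Φ, Prod.snd_add, Prod.smul_snd, Pi.add_apply, Pi.smul_apply, smul_eq_mul,
        Finset.sum_add_distrib, ← Finset.mul_sum]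
      linear_combination τ * hab
  have hQconv : Convex ℝ Q := convex_Ici 0
  have hQcl : IsClosed Q := isClosed_Ici
  by_cases hdisj : Disjoint K Q
  · exfalso
    obtain ⟨f, u, v, hfu, huv, hfv⟩ :=
      geometric_hahn_banach_compact_closed hKconv hKc hQconv hQcl hdisj
    have hv0 : v < 0 := by
      have := hfv 0 (Set.mem_Ici.mpr le_rfl)
      simpa using this
    have hfnn : ∀ q ∈ Q, 0 ≤ f q := by
      intro q hq
      by_contra hneg
      push Not at hneg
      -- scale
      have hc : 0 ≤ v / f q := by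
        exact div_nonneg_of_nonpos hv0.le hneg.le
      have hmem : (v / f q) • q ∈ Q := by
        have hq' : (0 : (E → ℝ) × ℝ) ≤ q := hq
        exact smul_nonneg hc hq'
      have := hfv _ hmem
      rw [map_smul, smul_eq_mul, div_mul_cancel₀ _ hneg.ne] at this
      exact lt_irrefl _ this
    let w : E → ℝ := fun e => f (Pi.single e 1, 0)
    let t : ℝ := f (0, 1)
    have hw : ∀ e, 0 ≤ w e := by
      intro e
      refine hfnn _ ?_
      refine Set.mem_Ici.mpr ⟨?_, le_rfl⟩
      exact Pi.single_nonneg.mpr zero_le_one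
    have ht : 0 ≤ t := by
      refine hfnn _ ?_
      exact Set.mem_Ici.mpr ⟨le_rfl, zero_le_one⟩
    have hrep : ∀ (x : E → ℝ) (s : ℝ), f (x, s) = ∑ e, x e * w e + s * t := by
      intro x s
      have h1 : (x, s) = (∑ e, x e • ((Pi.single e 1 : E → ℝ), (0 : ℝ))) + s • ((0 : E → ℝ), (1 : ℝ)) := by
        ext e
        · simp [Prod.fst_sum, Finset.sum_apply, Pi.single_apply]
        · simp [Prod.snd_sum]
      rw [h1, map_add, map_sum]
      simp only [map_smul, smul_eq_mul]
      rfl
    -- the test point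
    let y : ι → ℝ := fun i => if ∑ e ∈ S i, w e < t then 1 else 0
    have hyC : y ∈ C := by
      refine ⟨fun i => ?_, fun i => ?_⟩
      · simp only [y]; split_ifs <;> simp
      · simp only [y]; split_ifs <;> simp
    have hfy := hfu (Φ y) ⟨y, hyC, rfl⟩
    have hfy0 : f (Φ y) < 0 := hfy.trans (huv.trans hv0)
    rw [hrep] at hfy0
    have hswap : ∑ e, deg y e * w e = ∑ i ∈ I, y i * ∑ e ∈ S i, w e := by
      simp only [deg, Finset.sum_mul, Finset.mul_sum, Finset.sum_filter]
      rw [Finset.sum_comm]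
      refine Finset.sum_congr rfl (fun i _ => ?_)
      simp only [ite_mul, zero_mul]
      rw [← Finset.sum_filter, Finset.filter_mem_eq_inter, Finset.univ_inter]
    have hmain : ∑ e, w e - t * τ + ∑ i ∈ I, max (t - ∑ e ∈ S i, w e) 0 < 0 := by
      have h2 : ∑ e, (1 - deg y e) * w e + (∑ i ∈ I, y i - τ) * t =
        ∑ e, w e - t * τ + ∑ i ∈ I, max (t - ∑ e ∈ S i, w e) 0 := by
        have h3 : ∑ i ∈ I, max (t - ∑ e ∈ S i, w e) 0 = ∑ i ∈ I, y i * (t - ∑ e ∈ S i, w e) := by
          refine Finset.sum_congr rfl (fun i _ => ?_)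
          simp only [y]
          split_ifs with hlt
          · rw [max_eq_left (by linarith), one_mul]
          · rw [max_eq_right (by linarith), zero_mul]
        rw [h3]
        simp only [sub_mul, one_mul, mul_sub, Finset.sum_sub_distrib]
        rw [hswap, Finset.sum_mul]
        ring
      rw [← h2]
      exact hfy0
    have htpos : 0 < t := by
      rcases ht.lt_or_eq with h0 | h0
      · exact h0
      · exfalso
        rw [← h0] at hmain
        have h4 : 0 ≤ ∑ e, w e := Finset.sum_nonneg (fun e _ => hw e)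
        have h5 : 0 ≤ ∑ i ∈ I, max (0 - ∑ e ∈ S i, w e) 0 :=
          Finset.sum_nonneg (fun i _ => le_max_right _ _)
        linarith
    -- choose a point in every set
    choose! pt hpt using hne
    let w' : E → ℝ := fun e => (w e + ∑ i ∈ I with pt i = e, max (t - ∑ e ∈ S i, w e) 0) / t
    have hw' : ∀ e, 0 ≤ w' e := by
      intro e
      refine div_nonneg (add_nonneg (hw e) (Finset.sum_nonneg (fun i _ => le_max_right _ _))) ht
    have hcover : ∀ i ∈ I, 1 ≤ ∑ e ∈ S i, w' e := by
      intro i hi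
      have h6 : ∑ e ∈ S i, w' e = (∑ e ∈ S i, w e +
          ∑ e ∈ S i, ∑ i ∈ I with pt i = e, max (t - ∑ e ∈ S i, w e) 0) / t := by
        simp only [w']
        rw [← Finset.sum_div, Finset.sum_add_distrib]
      rw [h6, le_div_iff₀ htpos, one_mul]
      have h7 : max (t - ∑ e ∈ S i, w e) 0 ≤
          ∑ e ∈ S i, ∑ i ∈ I with pt i = e, max (t - ∑ e ∈ S i, w e) 0 := by
        have h8 : ∑ i ∈ I with pt i = pt i, max (t - ∑ e ∈ S i, w e) 0 ≥ 0 :=
          Finset.sum_nonneg (fun i _ => le_max_right _ _)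
        have h9 : ∑ k ∈ I with pt k = pt i, max (t - ∑ e ∈ S k, w e) 0 ≤
            ∑ e ∈ S i, ∑ i ∈ I with pt i = e, max (t - ∑ e ∈ S i, w e) 0 :=
          Finset.single_le_sum
            (f := fun e => ∑ i ∈ I with pt i = e, max (t - ∑ e ∈ S i, w e) 0)
            (fun e _ => Finset.sum_nonneg (fun i _ => le_max_right _ _)) (hpt i hi)
        refine le_trans ?_ h9
        exact Finset.single_le_sum (f := fun k => max (t - ∑ e ∈ S k, w e) 0)
          (fun k _ => le_max_right _ _) (Finset.mem_filter.mpr ⟨hi, rfl⟩)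
      have h10 := le_max_left (t - ∑ e ∈ S i, w e) 0
      linarith
    have hτ := h w' hw' hcover
    have htot : ∑ e, w' e = (∑ e, w e + ∑ i ∈ I, max (t - ∑ e ∈ S i, w e) 0) / t := by
      simp only [w']
      rw [← Finset.sum_div, Finset.sum_add_distrib]
      congr 2
      exact Finset.sum_fiberwise I pt (fun i => max (t - ∑ e ∈ S i, w e) 0)
    rw [htot, le_div_iff₀ htpos] at hτ
    linarith
  · rw [Set.not_disjoint_iff] at hdisj
    obtain ⟨_, ⟨y, hy, rfl⟩, hq⟩ := hdisj
    have hq' : (0 : (E → ℝ) × ℝ) ≤ Φ y := hq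
    refine ⟨fun i => if i ∈ I then y i else 0, ?_, ?_, ?_, ?_⟩
    · intro i
      dsimp only
      split_ifs
      · exact hy.1 i
      · exact le_rfl
    · intro i hi
      simp [hi]
    · intro e
      have h1 := hq'.1 e
      simp only [Φ, deg, Prod.fst_zero, Pi.zero_apply] at h1
      have h2 : ∑ i ∈ I with e ∈ S i, (if i ∈ I then y i else 0) = ∑ i ∈ I with e ∈ S i, y i := by
        refine Finset.sum_congr rfl (fun i hi => ?_)
        rw [if_pos (Finset.mem_filter.mp hi).1]
      rw [h2]; linarith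
    · have h1 := hq'.2
      simp only [Φ, Prod.snd_zero] at h1
      have h2 : ∑ i ∈ I, (if i ∈ I then y i else 0) = ∑ i ∈ I, y i := by
        refine Finset.sum_congr rfl (fun i hi => ?_)
        rw [if_pos hi]
      rw [h2]; linarith

end Pool.Agent.LibTuza
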