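import Mathlib

namespace Pool.Agent.LibTuza

open Finset

variable {V : Type*} [DecidableEq V]

/-- Sum of the off-diagonal entries over a finset. -/
noncomputable def offSum (A : V → V → ℝ) (M : Finset V) : ℝ :=
  ∑ u ∈ M, ∑ v ∈ M.erase u, A u v

theorem offSum_insert (A : V → V → ℝ) (hsymm : ∀ u v, A u v = A v u) (M : Finset V) (j : V)
    (hj : j ∉ M) : offSum A (insert j M) = offSum A M + 2 * ∑ i ∈ M, A i j := by
  unfold offSum
  rw [Finset.sum_insert hj, Finset.erase_insert hj]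
  have h1 : ∀ u ∈ M, ∑ v ∈ (insert j M).erase u, A u v = A u j + ∑ v ∈ M.erase u, A u v := by
    intro u hu
    have hne : u ≠ j := fun h => hj (h ▸ hu)
    rw [Finset.erase_insert_of_ne (Ne.symm hne), Finset.sum_insert]
    intro h
    exact hj (Finset.mem_of_mem_erase h)
  rw [Finset.sum_congr rfl h1, Finset.sum_add_distrib]
  have h2 : ∑ v ∈ M, A j v = ∑ i ∈ M, A i j := Finset.sum_congr rfl (fun v _ => hsymm j v)
  rw [h2]; ring

theorem greedy (A : V → V → ℝ) (hsymm : ∀ u v, A u v = A v u) (hnn : ∀ u v, 0 ≤ A u v)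
    (hdiag : ∀ u, A u u = 1) (S : Finset V) (hS : S.Nonempty) (r : ℕ) (hr : 2 ≤ r)
    (hrow : ∀ u ∈ S, ∑ v ∈ S, A u v < (S.card : ℝ) / ((r : ℝ) - 1)) :
    ∀ m : ℕ, m + 1 ≤ r → ∃ M ⊆ S, M.card = m + 1 ∧
      (∀ u ∈ M, ∀ v ∈ M, u ≠ v → A u v < 1) ∧
      offSum A M ≤ ((m : ℝ) + 1) * m / ((r : ℝ) - 1) ∧
      (1 ≤ m → offSum A M < ((m : ℝ) + 1) * m / ((r : ℝ) - 1)) := by
  have hr1 : (0 : ℝ) < (r : ℝ) - 1 := by
    have : (2 : ℝ) ≤ r := by exact_mod_cast hr
    linarith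
  have hScard : (0 : ℝ) < S.card := by exact_mod_cast Finset.card_pos.mpr hS
  intro m
  induction m with
  | zero =>
    intro _
    obtain ⟨u, hu⟩ := hS
    refine ⟨{u}, by simpa using hu, by simp, ?_, ?_, ?_⟩
    · intro a ha b hb hab
      simp at ha hb
      exact absurd (ha.trans hb.symm) hab
    · simp [offSum]
    · intro h; omega
  | succ m ih =>
    intro hm
    obtain ⟨M, hMS, hMc, hMcl, hMle, _⟩ := ih (by omega)
    -- there is j in S with ∑_{i∈M} A i j < (m+1)/(r-1)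
    have hm1 : ((m : ℝ) + 1) ≤ (r : ℝ) - 1 := by
      have : ((m + 1 + 1 : ℕ) : ℝ) ≤ r := by exact_mod_cast hm
      push_cast at this
      linarith
    have hex : ∃ j ∈ S, ∑ i ∈ M, A i j < ((m : ℝ) + 1) / ((r : ℝ) - 1) := by
      by_contra hcon
      push Not at hcon
      have h1 : (S.card : ℝ) * (((m : ℝ) + 1) / ((r : ℝ) - 1)) ≤ ∑ j ∈ S, ∑ i ∈ M, A i j := by
        have := Finset.card_nsmul_le_sum S (fun j => ∑ i ∈ M, A i j) _ hcon
        simpa [nsmul_eq_mul] using this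
      rw [Finset.sum_comm] at h1
      have hMne : M.Nonempty := by
        rw [← Finset.card_pos, hMc]; omega
      have h2 : ∑ i ∈ M, ∑ j ∈ S, A i j < ∑ i ∈ M, (S.card : ℝ) / ((r : ℝ) - 1) :=
        Finset.sum_lt_sum_of_nonempty hMne (fun i hi => hrow i (hMS hi))
      rw [Finset.sum_const, hMc, nsmul_eq_mul] at h2
      push_cast at h2
      have : ((m : ℝ) + 1) * ((S.card : ℝ) / ((r : ℝ) - 1)) =
          (S.card : ℝ) * (((m : ℝ) + 1) / ((r : ℝ) - 1)) := by ring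
      linarith
    obtain ⟨j, hjS, hj⟩ := hex
    have hle1 : ((m : ℝ) + 1) / ((r : ℝ) - 1) ≤ 1 := by
      rw [div_le_one hr1]; exact hm1
    have hlt1 : ∀ i ∈ M, A i j < 1 := by
      intro i hi
      have : A i j ≤ ∑ i ∈ M, A i j := Finset.single_le_sum (f := fun i => A i j)
        (fun i _ => hnn i j) hi
      linarith
    have hjM : j ∉ M := by
      intro hjM
      have := hlt1 j hjM
      rw [hdiag] at this
      exact lt_irrefl _ this
    have hoff : offSum A (insert j M) < (((m + 1 : ℕ) : ℝ) + 1) * ((m + 1 : ℕ) : ℝ) / ((r : ℝ) - 1) := by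
      rw [offSum_insert A hsymm M j hjM]
      have : (((m + 1 : ℕ) : ℝ) + 1) * ((m + 1 : ℕ) : ℝ) / ((r : ℝ) - 1) =
        ((m : ℝ) + 1) * m / ((r : ℝ) - 1) + 2 * (((m : ℝ) + 1) / ((r : ℝ) - 1)) := by
        push_cast
        ring
      rw [this]
      linarith
    refine ⟨insert j M, ?_, ?_, ?_, hoff.le, fun _ => hoff⟩
    · exact Finset.insert_subset hjS hMS
    · rw [Finset.card_insert_of_notMem hjM, hMc]
    · intro u hu v hv huv
      rw [Finset.mem_insert] at hu hv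
      rcases hu with rfl | hu
      · rcases hv with rfl | hv
        · exact absurd rfl huv
        · rw [hsymm]; exact hlt1 v hv
      · rcases hv with rfl | hv
        · exact hlt1 u hu
        · exact hMcl u hu v hv huv

theorem sum_erase_full (A : V → V → ℝ) (hsymm : ∀ u v, A u v = A v u) (S : Finset V) (u : V)
    (hu : u ∈ S) : ∑ a ∈ S, ∑ b ∈ S, A a b =
      ∑ a ∈ S.erase u, ∑ b ∈ S.erase u, A a b + 2 * ∑ b ∈ S, A u b - A u u := by
  rw [← Finset.add_sum_erase S _ hu]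
  have h1 : ∀ a ∈ S.erase u, ∑ b ∈ S, A a b = A a u + ∑ b ∈ S.erase u, A a b := by
    intro a _
    rw [← Finset.add_sum_erase S _ hu]
  rw [Finset.sum_congr rfl h1, Finset.sum_add_distrib]
  have h2 : ∑ a ∈ S.erase u, A a u = ∑ b ∈ S, A u b - A u u := by
    rw [← Finset.add_sum_erase S (fun b => A u b) hu]
    rw [Finset.sum_congr rfl (fun a _ => hsymm a u)]
    ring
  rw [h2]; ring

/-- The weighted Turan type inequality. -/
theorem cover_ineq (A : V → V → ℝ) (hsymm : ∀ u v, A u v = A v u) (hnn : ∀ u v, 0 ≤ A u v)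
    (hdiag : ∀ u, A u u = 1) (r : ℕ) (hr : 2 ≤ r) :
    ∀ (n : ℕ) (S : Finset V), S.card = n →
    (∀ R ⊆ S, R.card = r → (∀ u ∈ R, ∀ v ∈ R, u ≠ v → A u v < 1) → (r : ℝ) ≤ offSum A R) →
    ((n : ℝ) ^ 2 - ((r : ℝ) - 2) * n) / ((r : ℝ) - 1) ≤ ∑ u ∈ S, ∑ v ∈ S, A u v := by
  have hr1 : (0 : ℝ) < (r : ℝ) - 1 := by
    have : (2 : ℝ) ≤ r := by exact_mod_cast hr
    linarith
  intro n
  induction n with
  | zero =>
    intro S hS _
    rw [Finset.card_eq_zero] at hS
    subst hS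
    simp
  | succ n ih =>
    intro S hS hR
    have hSne : S.Nonempty := by rw [← Finset.card_pos]; omega
    by_cases hrow : ∀ u ∈ S, ∑ v ∈ S, A u v < (S.card : ℝ) / ((r : ℝ) - 1)
    · exfalso
      obtain ⟨M, hMS, hMc, hMcl, _, hMlt⟩ := greedy A hsymm hnn hdiag S hSne r hr hrow (r - 1) (by omega)
      have h1 := hMlt (by omega)
      have h2 := hR M hMS (by omega) hMcl
      have h3 : (((r - 1 : ℕ) : ℝ) + 1) * ((r - 1 : ℕ) : ℝ) / ((r : ℝ) - 1) = r := by
        rw [Nat.cast_sub (by omega)]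
        push_cast
        field_simp
        ring
      rw [h3] at h1
      linarith
    · push Not at hrow
      obtain ⟨u, hu, hrow⟩ := hrow
      rw [sum_erase_full A hsymm S u hu, hdiag]
      have h1 := ih (S.erase u) (by rw [Finset.card_erase_of_mem hu, hS]; rfl)
        (fun R hRS => hR R (hRS.trans (Finset.erase_subset _ _)))
      rw [hS] at hrow
      have h2 : (((n + 1 : ℕ) : ℝ) ^ 2 - ((r : ℝ) - 2) * ((n + 1 : ℕ) : ℝ)) / ((r : ℝ) - 1) =
          ((n : ℝ) ^ 2 - ((r : ℝ) - 2) * n) / ((r : ℝ) - 1) + 2 * (((n + 1 : ℕ) : ℝ) / ((r : ℝ) - 1)) - 1 := by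
        push_cast
        field_simp
        ring
      rw [h2]
      linarith

end Pool.Agent.LibTuza
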