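import Mathlib
import Pool.Agent.LibTuza.Cover
import Pool.Agent.LibTuza.Duality

namespace Pool.Agent.LibTuza

open Finset

section Graph

set_option linter.unusedSectionVars false

variable {V : Type*} [Fintype V] [DecidableEq V]

/-- Unordered pairs of distinct elements of `Q`. -/
def E2 (Q : Finset V) : Finset (Sym2 V) := Q.offDiag.image Sym2.mk.uncurry

theorem mem_E2 (Q : Finset V) (u v : V) : s(u, v) ∈ E2 Q ↔ u ∈ Q ∧ v ∈ Q ∧ u ≠ v := by
  unfold E2
  rw [Finset.mem_image]
  constructor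
  · rintro ⟨⟨a, b⟩, hab, h⟩
    rw [Finset.mem_offDiag] at hab
    simp only [Function.uncurry_apply_pair, Sym2.eq_iff] at h
    obtain ⟨h1, h2, h3⟩ := hab
    rcases h with ⟨rfl, rfl⟩ | ⟨rfl, rfl⟩
    · exact ⟨h1, h2, h3⟩
    · exact ⟨h2, h1, Ne.symm h3⟩
  · rintro ⟨h1, h2, h3⟩
    exact ⟨(u, v), Finset.mem_offDiag.mpr ⟨h1, h2, h3⟩, rfl⟩

theorem card_E2 (Q : Finset V) : (E2 Q).card = Q.card.choose 2 := Sym2.card_image_offDiag Q

theorem E2_mono {Q T : Finset V} (h : Q ⊆ T) : E2 Q ⊆ E2 T :=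
  Finset.image_subset_image (Finset.offDiag_mono h)

theorem sum_offDiag_E2 (T : Finset V) (F : Sym2 V → ℝ) :
    ∑ p ∈ T.offDiag, F s(p.1, p.2) = 2 * ∑ e ∈ E2 T, F e := by
  have hmaps : ∀ p ∈ T.offDiag, Sym2.mk.uncurry p ∈ E2 T := fun p hp =>
    Finset.mem_image_of_mem _ hp
  rw [← Finset.sum_fiberwise_of_maps_to hmaps, Finset.mul_sum]
  refine Finset.sum_congr rfl (fun e he => ?_)
  induction e using Sym2.ind with
  | _ a b =>
    rw [mem_E2] at he
    obtain ⟨ha, hb, hab⟩ := he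
    have h1 : (T.offDiag.filter (fun p => Sym2.mk.uncurry p = s(a, b))) = {(a, b), (b, a)} := by
      ext ⟨x, y⟩
      simp only [Finset.mem_filter, Finset.mem_offDiag, Function.uncurry_apply_pair, Sym2.eq_iff,
        Finset.mem_insert, Finset.mem_singleton, Prod.mk.injEq]
      constructor
      · rintro ⟨_, h⟩; exact h
      · rintro (⟨rfl, rfl⟩ | ⟨rfl, rfl⟩)
        · exact ⟨⟨ha, hb, hab⟩, Or.inl ⟨rfl, rfl⟩⟩
        · exact ⟨⟨hb, ha, Ne.symm hab⟩, Or.inr ⟨rfl, rfl⟩⟩
    rw [h1, Finset.sum_pair]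
    · have : s(b, a) = s(a, b) := Sym2.eq_swap
      simp only [this]
      ring
    · intro h
      rw [Prod.mk.injEq] at h
      exact hab h.1

theorem sum_erase_offDiag (T : Finset V) (f : V → V → ℝ) :
    ∑ u ∈ T, ∑ v ∈ T.erase u, f u v = ∑ p ∈ T.offDiag, f p.1 p.2 := by
  have h1 : T.offDiag = (T ×ˢ T).filter (fun p => p.1 ≠ p.2) := by
    ext ⟨a, b⟩
    simp [Finset.mem_offDiag, and_assoc]
  rw [h1, Finset.sum_filter, Finset.sum_product]
  refine Finset.sum_congr rfl (fun u hu => ?_)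
  rw [← Finset.sum_filter]
  refine Finset.sum_congr ?_ (fun _ _ => rfl)
  ext v
  simp only [Finset.mem_erase, Finset.mem_filter]
  tauto

/-- Local fractional packing: for every vertex set `T` there is a fractional packing of `r`-cliques
inside `T` of the right weight. -/
theorem local_packing (G : SimpleGraph V) [DecidableRel G.Adj] (r : ℕ) (hr : 2 ≤ r) (T : Finset V) :
    ∃ y : Finset V → ℝ, (∀ Q, 0 ≤ y Q) ∧ (∀ Q, y Q ≠ 0 → Q ⊆ T ∧ G.IsNClique r Q) ∧
      (∀ e, ∑ Q with e ∈ E2 Q, y Q ≤ 1) ∧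
      (2 / (r : ℝ)) * (((E2 T).filter (fun e => e ∈ G.edgeSet)).card -
        ((r : ℝ) - 2) / (2 * ((r : ℝ) - 1)) * ((T.card : ℝ) ^ 2 + T.card)) ≤ ∑ Q, y Q := by
  classical
  have hr2 : (2 : ℝ) ≤ r := by exact_mod_cast hr
  have hr0 : (0 : ℝ) < r := by linarith
  have hr1 : (0 : ℝ) < (r : ℝ) - 1 := by linarith
  set I : Finset (Finset V) := (Finset.univ : Finset (Finset V)).filter
    (fun Q => Q ⊆ T ∧ G.IsNClique r Q) with hI
  have hne : ∀ Q ∈ I, (E2 Q).Nonempty := by
    intro Q hQ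
    have hQ' := (Finset.mem_filter.mp hQ).2.2
    rw [← Finset.card_pos, card_E2, hQ'.card_eq]
    exact Nat.choose_pos hr
  obtain ⟨y, hy0, hyI, hyd, hyτ⟩ := lp_duality (fun Q : Finset V => E2 Q) I hne
    ((2 / (r : ℝ)) * (((E2 T).filter (fun e => e ∈ G.edgeSet)).card -
        ((r : ℝ) - 2) / (2 * ((r : ℝ) - 1)) * ((T.card : ℝ) ^ 2 + T.card))) (by
    intro w hw hcov
    let F : Sym2 V → ℝ := fun e => if e ∈ G.edgeSet then (r : ℝ) / 2 * w e else 1
    have hF0 : ∀ e, 0 ≤ F e := by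
      intro e
      simp only [F]
      split_ifs
      · exact mul_nonneg (by positivity) (hw e)
      · exact zero_le_one
    let A : V → V → ℝ := fun u v => if u = v then 1 else F s(u, v)
    have hsymm : ∀ u v, A u v = A v u := by
      intro u v
      simp only [A]
      rw [Sym2.eq_swap]
      by_cases h : u = v
      · simp [h]
      · simp [h, Ne.symm h]
    have hnn : ∀ u v, 0 ≤ A u v := by
      intro u v
      simp only [A]
      split_ifs
      · exact zero_le_one
      · exact hF0 _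
    have hdiag : ∀ u, A u u = 1 := by intro u; simp [A]
    have hoff : ∀ R : Finset V, ∑ u ∈ R, ∑ v ∈ R.erase u, A u v = 2 * ∑ e ∈ E2 R, F e := by
      intro R
      rw [← sum_offDiag_E2, sum_erase_offDiag]
      refine Finset.sum_congr rfl (fun p hp => ?_)
      have : p.1 ≠ p.2 := (Finset.mem_offDiag.mp hp).2.2
      simp only [A]
      rw [if_neg this]
    have hmain := cover_ineq A hsymm hnn hdiag r hr T.card T rfl (by
      intro R hRT hRc hRA
      have hclique : G.IsNClique r R := by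
        refine ⟨?_, hRc⟩
        intro u hu v hv huv
        by_contra hnadj
        have h1 := hRA u hu v hv huv
        simp only [A, F] at h1
        rw [if_neg huv, if_neg] at h1
        · exact lt_irrefl _ h1
        · rw [SimpleGraph.mem_edgeSet]; exact hnadj
      have hRI : R ∈ I := Finset.mem_filter.mpr ⟨Finset.mem_univ _, hRT, hclique⟩
      have h2 := hcov R hRI
      unfold offSum
      rw [hoff]
      have h3 : ∑ e ∈ E2 R, F e = (r : ℝ) / 2 * ∑ e ∈ E2 R, w e := by
        rw [Finset.mul_sum]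
        refine Finset.sum_congr rfl (fun e he => ?_)
        simp only [F]
        rw [if_pos]
        induction e using Sym2.ind with
        | _ a b =>
          rw [mem_E2] at he
          rw [SimpleGraph.mem_edgeSet]
          exact hclique.1 he.1 he.2.1 he.2.2
      rw [h3]
      have h4 : 2 * ((r : ℝ) / 2 * ∑ e ∈ E2 R, w e) = r * ∑ e ∈ E2 R, w e := by ring
      rw [h4]
      calc (r : ℝ) = r * 1 := (mul_one _).symm
        _ ≤ r * ∑ e ∈ E2 R, w e := mul_le_mul_of_nonneg_left h2 hr0.le)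
    have hfull : ∑ u ∈ T, ∑ v ∈ T, A u v = T.card + 2 * ∑ e ∈ E2 T, F e := by
      rw [← hoff]
      have : ∀ u ∈ T, ∑ v ∈ T, A u v = 1 + ∑ v ∈ T.erase u, A u v := by
        intro u hu
        rw [← Finset.add_sum_erase T _ hu, hdiag]
      rw [Finset.sum_congr rfl this, Finset.sum_add_distrib]
      simp
    have hFsum : ∑ e ∈ E2 T, F e = (r : ℝ) / 2 * ∑ e ∈ (E2 T).filter (fun e => e ∈ G.edgeSet), w e +
        (((E2 T).card : ℝ) - ((E2 T).filter (fun e => e ∈ G.edgeSet)).card) := by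
      rw [← Finset.sum_filter_add_sum_filter_not (E2 T) (fun e => e ∈ G.edgeSet) F]
      congr 1
      · rw [Finset.mul_sum]
        refine Finset.sum_congr rfl (fun e he => ?_)
        simp only [F]
        rw [if_pos (Finset.mem_filter.mp he).2]
      · have h5 : ∑ e ∈ (E2 T).filter (fun e => ¬ e ∈ G.edgeSet), F e =
            ∑ e ∈ (E2 T).filter (fun e => ¬ e ∈ G.edgeSet), (1 : ℝ) := by
          refine Finset.sum_congr rfl (fun e he => ?_)
          simp only [F]
          rw [if_neg (Finset.mem_filter.mp he).2]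
        rw [h5, Finset.sum_const, nsmul_eq_mul, mul_one]
        have h6 := Finset.card_filter_add_card_filter_not (s := E2 T) (fun e => e ∈ G.edgeSet)
        have h7 : (((E2 T).filter (fun e => e ∈ G.edgeSet)).card : ℝ) +
            ((E2 T).filter (fun e => ¬ e ∈ G.edgeSet)).card = (E2 T).card := by
          exact_mod_cast h6
        linarith
    have hcardE : ((E2 T).card : ℝ) = (T.card : ℝ) * ((T.card : ℝ) - 1) / 2 := by
      rw [card_E2, Nat.cast_choose_two]
    rw [hfull, hFsum, hcardE] at hmain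
    have hle : ∑ e ∈ (E2 T).filter (fun e => e ∈ G.edgeSet), w e ≤ ∑ e, w e :=
      Finset.sum_le_sum_of_subset_of_nonneg (Finset.subset_univ _) (fun e _ _ => hw e)
    set W := ∑ e ∈ (E2 T).filter (fun e => e ∈ G.edgeSet), w e with hW
    set N : ℝ := (T.card : ℝ) with hN
    set m : ℝ := (((E2 T).filter (fun e => e ∈ G.edgeSet)).card : ℝ) with hm
    refine le_trans ?_ hle
    have h8 : (N ^ 2 - ((r : ℝ) - 2) * N) / ((r : ℝ) - 1) =
        N ^ 2 - ((r : ℝ) - 2) / ((r : ℝ) - 1) * (N ^ 2 + N) := by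
      field_simp
      ring
    rw [h8] at hmain
    have h9 : ((r : ℝ) - 2) / (2 * ((r : ℝ) - 1)) = ((r : ℝ) - 2) / ((r : ℝ) - 1) / 2 := by
      field_simp
    rw [h9, div_mul_eq_mul_div, div_le_iff₀ hr0]
    linarith)
  refine ⟨y, hy0, ?_, ?_, ?_⟩
  · intro Q hQ
    by_contra hc
    refine hQ (hyI Q ?_)
    intro hQI
    exact hc (Finset.mem_filter.mp hQI).2
  · intro e
    refine le_trans (le_of_eq ?_) (hyd e)
    rw [Finset.sum_filter, Finset.sum_filter]
    rw [← Finset.sum_subset (Finset.subset_univ I)]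
    intro Q _ hQ
    rw [hyI Q hQ]; simp
  · refine hyτ.trans (le_of_eq ?_)
    refine Finset.sum_subset (Finset.subset_univ I) (fun Q _ hQ => hyI Q hQ)

end Graph

end Pool.Agent.LibTuza
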