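import Mathlib

namespace Pool.Agent.LibTuza

open Finset

section Prob

variable {κ : Type*} [Fintype κ] [DecidableEq κ]

/-- Weight of an outcome `g` when `k` is picked with probability `1 - exp (-a k)`. -/
noncomputable def bw (a : κ → ℝ) (g : κ → Bool) : ℝ :=
  ∏ k, (if g k = true then 1 - Real.exp (-a k) else Real.exp (-a k))

/-- Expectation. -/
noncomputable def Ex (a : κ → ℝ) (F : (κ → Bool) → ℝ) : ℝ := ∑ g, bw a g * F g

theorem Ex_prod (a : κ → ℝ) (φ : κ → Bool → ℝ) :
    Ex a (fun g => ∏ k, φ k (g k)) =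
      ∏ k, ((1 - Real.exp (-a k)) * φ k true + Real.exp (-a k) * φ k false) := by
  unfold Ex bw
  have h1 : ∀ k, (1 - Real.exp (-a k)) * φ k true + Real.exp (-a k) * φ k false =
      ∑ b ∈ (Finset.univ : Finset Bool),
        (if b = true then 1 - Real.exp (-a k) else Real.exp (-a k)) * φ k b := by
    intro k
    simp
  rw [Finset.prod_congr rfl (fun k _ => h1 k), Finset.prod_univ_sum]
  rw [Fintype.piFinset_univ]
  refine Finset.sum_congr rfl (fun g _ => ?_)
  rw [← Finset.prod_mul_distrib]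

theorem Ex_add (a : κ → ℝ) (F G : (κ → Bool) → ℝ) :
    Ex a (fun g => F g + G g) = Ex a F + Ex a G := by
  unfold Ex
  rw [← Finset.sum_add_distrib]
  exact Finset.sum_congr rfl (fun g _ => by ring)

theorem Ex_sub (a : κ → ℝ) (F G : (κ → Bool) → ℝ) :
    Ex a (fun g => F g - G g) = Ex a F - Ex a G := by
  unfold Ex
  rw [← Finset.sum_sub_distrib]
  exact Finset.sum_congr rfl (fun g _ => by ring)

theorem Ex_mul (a : κ → ℝ) (c : ℝ) (F : (κ → Bool) → ℝ) :
    Ex a (fun g => c * F g) = c * Ex a F := by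
  unfold Ex
  rw [Finset.mul_sum]
  exact Finset.sum_congr rfl (fun g _ => by ring)

theorem Ex_sum {α : Type*} (a : κ → ℝ) (s : Finset α) (F : α → (κ → Bool) → ℝ) :
    Ex a (fun g => ∑ i ∈ s, F i g) = ∑ i ∈ s, Ex a (F i) := by
  unfold Ex
  rw [Finset.sum_comm]
  refine Finset.sum_congr rfl (fun g _ => ?_)
  rw [Finset.mul_sum]

theorem Ex_one (a : κ → ℝ) : Ex a (fun _ => 1) = 1 := by
  have h := Ex_prod a (fun _ _ => 1)
  simpa using h

theorem Ex_const (a : κ → ℝ) (c : ℝ) : Ex a (fun _ => c) = c := by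
  have h := Ex_mul a c (fun _ => 1)
  rw [Ex_one, mul_one] at h
  simpa using h

theorem bw_nonneg (a : κ → ℝ) (ha : ∀ k, 0 ≤ a k) (g : κ → Bool) : 0 ≤ bw a g := by
  unfold bw
  refine Finset.prod_nonneg (fun k _ => ?_)
  split_ifs
  · have : Real.exp (-a k) ≤ 1 := Real.exp_le_one_iff.mpr (by linarith [ha k])
    linarith
  · exact (Real.exp_pos _).le

theorem Ex_mono (a : κ → ℝ) (ha : ∀ k, 0 ≤ a k) (F G : (κ → Bool) → ℝ) (h : ∀ g, F g ≤ G g) :
    Ex a F ≤ Ex a G :=
  Finset.sum_le_sum (fun g _ => mul_le_mul_of_nonneg_left (h g) (bw_nonneg a ha g))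

theorem exists_ge_Ex (a : κ → ℝ) (ha : ∀ k, 0 ≤ a k) (F : (κ → Bool) → ℝ) :
    ∃ g, Ex a F ≤ F g := by
  by_contra hcon
  push Not at hcon
  have h1 : ∑ g, bw a g = 1 := by
    have := Ex_one a
    unfold Ex at this
    simpa using this
  have h2 : ∑ g, bw a g * F g < ∑ g, bw a g * Ex a F := by
    have hex : ∃ g, 0 < bw a g := by
      by_contra h0
      push Not at h0
      have : ∑ g, bw a g ≤ 0 := Finset.sum_nonpos (fun g _ => h0 g)
      linarith
    obtain ⟨g0, hg0⟩ := hex
    refine Finset.sum_lt_sum (fun g _ => mul_le_mul_of_nonneg_left (hcon g).le (bw_nonneg a ha g))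
      ⟨g0, Finset.mem_univ _, mul_lt_mul_of_pos_left (hcon g0) hg0⟩
  rw [← Finset.sum_mul, h1, one_mul] at h2
  exact lt_irrefl _ h2

/-- Probability that nothing in `T` is picked. -/
theorem Ex_avoid (a : κ → ℝ) (T : Finset κ) :
    Ex a (fun g => if ∀ k ∈ T, g k = false then (1 : ℝ) else 0) =
      Real.exp (-∑ k ∈ T, a k) := by
  have h1 : (fun g : κ → Bool => if ∀ k ∈ T, g k = false then (1 : ℝ) else 0) =
      fun g => ∏ k, (fun (k : κ) (b : Bool) => if k ∈ T ∧ b = true then (0 : ℝ) else 1) k (g k) := by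
    funext g
    split_ifs with h
    · rw [eq_comm]
      refine Finset.prod_eq_one (fun k _ => ?_)
      by_cases hk : k ∈ T
      · simp [h k hk]
      · simp [hk]
    · push Not at h
      obtain ⟨k, hk, hg⟩ := h
      rw [eq_comm]
      refine Finset.prod_eq_zero (Finset.mem_univ k) ?_
      have hg' : g k = true := by simpa using hg
      simp [hk, hg']
  rw [h1, Ex_prod a (fun (k : κ) (b : Bool) => if k ∈ T ∧ b = true then (0 : ℝ) else 1)]
  have h2 : ∀ k, ((1 - Real.exp (-a k)) * (if k ∈ T ∧ (true = true) then (0 : ℝ) else 1) +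
      Real.exp (-a k) * (if k ∈ T ∧ (false = true) then (0 : ℝ) else 1)) =
      if k ∈ T then Real.exp (-a k) else 1 := by
    intro k
    by_cases hk : k ∈ T <;> simp [hk]
  rw [Finset.prod_congr rfl (fun k _ => h2 k), Finset.prod_ite_mem, Finset.univ_inter,
    ← Real.exp_sum, Finset.sum_neg_distrib]

/-- Probability that `k0` is picked and nothing in `T` is picked. -/
theorem Ex_pick_avoid (a : κ → ℝ) (T : Finset κ) (k0 : κ) (hk0 : k0 ∉ T) :
    Ex a (fun g => if g k0 = true ∧ ∀ k ∈ T, g k = false then (1 : ℝ) else 0) =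
      (1 - Real.exp (-a k0)) * Real.exp (-∑ k ∈ T, a k) := by
  have h3 : (fun g : κ → Bool => if g k0 = true ∧ ∀ k ∈ T, g k = false then (1 : ℝ) else 0) =
      fun g => (if ∀ k ∈ T, g k = false then (1 : ℝ) else 0) -
        (if ∀ k ∈ insert k0 T, g k = false then (1 : ℝ) else 0) := by
    funext g
    by_cases h : ∀ k ∈ T, g k = false
    · by_cases h0 : g k0 = true
      · have : ¬ ∀ k ∈ insert k0 T, g k = false := by
          intro hh
          have := hh k0 (Finset.mem_insert_self _ _)
          rw [h0] at this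
          exact Bool.noConfusion this
        rw [if_pos ⟨h0, h⟩, if_pos h, if_neg this]; ring
      · have h0' : g k0 = false := by simpa using h0
        have : ∀ k ∈ insert k0 T, g k = false := by
          intro k hk
          rw [Finset.mem_insert] at hk
          rcases hk with rfl | hk
          · exact h0'
          · exact h k hk
        rw [if_neg (fun hh => h0 hh.1), if_pos h, if_pos this]; ring
    · have : ¬ ∀ k ∈ insert k0 T, g k = false := fun hh =>
        h (fun k hk => hh k (Finset.mem_insert_of_mem hk))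
      rw [if_neg (fun hh => h hh.2), if_neg h, if_neg this]; ring
  rw [h3, Ex_sub, Ex_avoid, Ex_avoid, Finset.sum_insert hk0, neg_add, Real.exp_add]
  ring

end Prob

end Pool.Agent.LibTuza
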