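import Mathlib
import Pool.Agent.LibTuza.Prob

namespace Pool.Agent.LibTuza

open Finset

section Rates

set_option linter.unusedSectionVars false

variable {V ι : Type*} [Fintype V] [DecidableEq V] [Fintype ι] [DecidableEq ι]

/-- Weighted degree of a point. -/
noncomputable def dg (S : ι → Finset V) (y : ι → ℝ) (v : V) : ℝ := ∑ i with v ∈ S i, y i

/-- Weighted codegree of two points. -/
noncomputable def cdg (S : ι → Finset V) (y : ι → ℝ) (u v : V) : ℝ :=
  ∑ i with (u ∈ S i ∧ v ∈ S i), y i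

/-- The sets, together with the auxiliary singletons. -/
def TT (S : ι → Finset V) : ι ⊕ V → Finset V := Sum.elim S (fun v => {v})

/-- The picking rates. -/
noncomputable def rate (ε : ℝ) (S : ι → Finset V) (U : Finset V) (y : ι → ℝ) : ι ⊕ V → ℝ :=
  Sum.elim (fun i => ε * y i) (fun v => if v ∈ U then ε * (1 - dg S y v) else 0)

/-- Indices whose set meets `A`. -/
def Hit (S : ι → Finset V) (A : Finset V) : Finset (ι ⊕ V) :=
  Finset.univ.filter (fun k => ¬ Disjoint (TT S k) A)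

/-- Indices whose set meets `A` and avoids `e`. -/
def HitX (S : ι → Finset V) (A : Finset V) (e : V) : Finset (ι ⊕ V) :=
  (Hit S A).filter (fun k => e ∉ TT S k)

theorem sum_dg (S : ι → Finset V) (y : ι → ℝ) (A : Finset V) :
    ∑ v ∈ A, dg S y v = ∑ i, y i * ((A.filter (fun v => v ∈ S i)).card : ℝ) := by
  unfold dg
  simp only [Finset.sum_filter]
  rw [Finset.sum_comm]
  refine Finset.sum_congr rfl (fun i _ => ?_)
  rw [← Finset.sum_filter, Finset.sum_const, nsmul_eq_mul, mul_comm]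

theorem sum_cdg (S : ι → Finset V) (y : ι → ℝ) (A : Finset V) :
    ∑ u ∈ A, ∑ v ∈ A.erase u, cdg S y u v =
      ∑ i, y i * (((A.filter (fun v => v ∈ S i)).card : ℝ) *
        (((A.filter (fun v => v ∈ S i)).card : ℝ) - 1)) := by
  unfold cdg
  have h1 : ∀ u ∈ A, ∑ v ∈ A.erase u, ∑ i with (u ∈ S i ∧ v ∈ S i), y i =
      ∑ i, (if u ∈ S i then y i * (((A.filter (fun v => v ∈ S i)).card : ℝ) - 1) else 0) := by
    intro u hu
    simp only [Finset.sum_filter]
    rw [Finset.sum_comm]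
    refine Finset.sum_congr rfl (fun i _ => ?_)
    by_cases hui : u ∈ S i
    · simp only [hui, true_and, if_true]
      rw [← Finset.sum_filter, Finset.sum_const, nsmul_eq_mul, mul_comm]
      congr 1
      have h2 : (A.erase u).filter (fun v => v ∈ S i) = (A.filter (fun v => v ∈ S i)).erase u := by
        ext v; simp only [Finset.mem_filter, Finset.mem_erase]; tauto
      rw [h2]
      have hmem : u ∈ A.filter (fun v => v ∈ S i) := Finset.mem_filter.mpr ⟨hu, hui⟩
      rw [Finset.card_erase_of_mem hmem, Nat.cast_sub (Finset.card_pos.mpr ⟨u, hmem⟩)]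
      simp
    · simp [hui]
  rw [Finset.sum_congr rfl h1, Finset.sum_comm]
  refine Finset.sum_congr rfl (fun i _ => ?_)
  rw [← Finset.sum_filter, Finset.sum_const, nsmul_eq_mul]
  ring

theorem hit_upper (S : ι → Finset V) (y : ι → ℝ) (hy : ∀ i, 0 ≤ y i) (A : Finset V) :
    ∑ i with ¬ Disjoint (S i) A, y i ≤ ∑ v ∈ A, dg S y v := by
  rw [sum_dg, Finset.sum_filter]
  refine Finset.sum_le_sum (fun i _ => ?_)
  by_cases h : ¬ Disjoint (S i) A
  · rw [if_pos h]
    obtain ⟨v, hv1, hv2⟩ := Finset.not_disjoint_iff.mp h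
    have : (1 : ℝ) ≤ ((A.filter (fun v => v ∈ S i)).card : ℝ) := by
      have : 0 < (A.filter (fun v => v ∈ S i)).card :=
        Finset.card_pos.mpr ⟨v, Finset.mem_filter.mpr ⟨hv2, hv1⟩⟩
      exact_mod_cast this
    nlinarith [hy i]
  · rw [if_neg h]
    exact mul_nonneg (hy i) (Nat.cast_nonneg _)

theorem hit_lower (S : ι → Finset V) (y : ι → ℝ) (hy : ∀ i, 0 ≤ y i) (A : Finset V) :
    ∑ v ∈ A, dg S y v - ∑ u ∈ A, ∑ v ∈ A.erase u, cdg S y u v ≤
      ∑ i with ¬ Disjoint (S i) A, y i := by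
  rw [sum_dg, sum_cdg, ← Finset.sum_sub_distrib, Finset.sum_filter]
  refine Finset.sum_le_sum (fun i _ => ?_)
  rw [← mul_sub]
  set n := (A.filter (fun v => v ∈ S i)).card with hn
  by_cases h : ¬ Disjoint (S i) A
  · rw [if_pos h]
    have h1 : (n : ℝ) - (n : ℝ) * ((n : ℝ) - 1) ≤ 1 := by nlinarith [sq_nonneg ((n : ℝ) - 1)]
    calc y i * ((n : ℝ) - (n : ℝ) * ((n : ℝ) - 1)) ≤ y i * 1 :=
          mul_le_mul_of_nonneg_left h1 (hy i)
      _ = y i := mul_one _
  · rw [if_neg h]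
    have hn0 : n = 0 := by
      rw [hn, Finset.card_eq_zero, Finset.filter_eq_empty_iff]
      intro v hvA hvS
      exact h (Finset.not_disjoint_iff.mpr ⟨v, hvS, hvA⟩)
    rw [hn0]; simp

theorem hit_lower' (S : ι → Finset V) (y : ι → ℝ) (hy : ∀ i, 0 ≤ y i) (η : ℝ)
    (hco : ∀ u v, u ≠ v → cdg S y u v ≤ η) (A : Finset V) :
    ∑ v ∈ A, dg S y v - (A.card : ℝ) * ((A.card : ℝ) - 1) * η ≤
      ∑ i with ¬ Disjoint (S i) A, y i := by
  refine le_trans ?_ (hit_lower S y hy A)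
  have h1 : ∑ u ∈ A, ∑ v ∈ A.erase u, cdg S y u v ≤ (A.card : ℝ) * ((A.card : ℝ) - 1) * η := by
    have h2 : ∀ u ∈ A, ∑ v ∈ A.erase u, cdg S y u v ≤ ((A.card : ℝ) - 1) * η := by
      intro u hu
      have h3 : ∑ v ∈ A.erase u, cdg S y u v ≤ ∑ v ∈ A.erase u, η :=
        Finset.sum_le_sum (fun v hv => hco u v (Finset.ne_of_mem_erase hv).symm)
      rw [Finset.sum_const, Finset.card_erase_of_mem hu, nsmul_eq_mul,
        Nat.cast_sub (Finset.card_pos.mpr ⟨u, hu⟩)] at h3
      simpa using h3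
    have h4 := Finset.sum_le_sum h2
    rw [Finset.sum_const, nsmul_eq_mul] at h4
    linarith
  linarith

theorem sum_rate_hit (ε : ℝ) (S : ι → Finset V) (U : Finset V) (y : ι → ℝ) (A : Finset V)
    (hA : A ⊆ U) :
    ∑ k ∈ Hit S A, rate ε S U y k =
      ε * (∑ i with ¬ Disjoint (S i) A, y i) + ε * ∑ v ∈ A, (1 - dg S y v) := by
  unfold Hit
  rw [Finset.sum_filter, Fintype.sum_sum_type]
  congr 1
  · rw [Finset.mul_sum, Finset.sum_filter]
    rfl
  · rw [Finset.mul_sum]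
    have h1 : ∀ v : V, (if ¬ Disjoint (TT S (Sum.inr v)) A then rate ε S U y (Sum.inr v) else 0) =
        if v ∈ A then ε * (1 - dg S y v) else 0 := by
      intro v
      simp only [TT, rate, Sum.elim_inr, Finset.disjoint_singleton_left, not_not]
      by_cases hv : v ∈ A
      · simp [hv, hA hv]
      · simp [hv]
    rw [Finset.sum_congr rfl (fun v _ => h1 v), ← Finset.sum_filter, Finset.filter_mem_eq_inter,
      Finset.univ_inter]

theorem rate_hit_upper (ε : ℝ) (hε : 0 ≤ ε) (S : ι → Finset V) (U : Finset V) (y : ι → ℝ)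
    (hy : ∀ i, 0 ≤ y i) (A : Finset V) (hA : A ⊆ U) :
    ∑ k ∈ Hit S A, rate ε S U y k ≤ ε * A.card := by
  rw [sum_rate_hit ε S U y A hA, ← mul_add]
  refine mul_le_mul_of_nonneg_left ?_ hε
  have := hit_upper S y hy A
  rw [Finset.sum_sub_distrib, Finset.sum_const, nsmul_eq_mul, mul_one]
  linarith

theorem rate_hit_lower (ε : ℝ) (hε : 0 ≤ ε) (S : ι → Finset V) (U : Finset V) (y : ι → ℝ)
    (hy : ∀ i, 0 ≤ y i) (η : ℝ) (hco : ∀ u v, u ≠ v → cdg S y u v ≤ η)
    (A : Finset V) (hA : A ⊆ U) :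
    ε * (A.card - (A.card : ℝ) * ((A.card : ℝ) - 1) * η) ≤ ∑ k ∈ Hit S A, rate ε S U y k := by
  rw [sum_rate_hit ε S U y A hA, ← mul_add]
  refine mul_le_mul_of_nonneg_left ?_ hε
  have := hit_lower' S y hy η hco A
  rw [Finset.sum_sub_distrib, Finset.sum_const, nsmul_eq_mul, mul_one]
  linarith

theorem rate_hit_single (ε : ℝ) (S : ι → Finset V) (U : Finset V) (y : ι → ℝ) (v : V)
    (hv : v ∈ U) :
    ∑ k ∈ Hit S {v}, rate ε S U y k = ε := by
  rw [sum_rate_hit ε S U y {v} (Finset.singleton_subset_iff.mpr hv)]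
  simp only [Finset.disjoint_singleton_right, not_not, Finset.sum_singleton]
  unfold dg
  ring

theorem rate_nonneg (ε : ℝ) (hε : 0 ≤ ε) (S : ι → Finset V) (U : Finset V) (y : ι → ℝ)
    (hy : ∀ i, 0 ≤ y i) (hdeg : ∀ v, dg S y v ≤ 1) (k : ι ⊕ V) : 0 ≤ rate ε S U y k := by
  rcases k with i | v
  · exact mul_nonneg hε (hy i)
  · simp only [rate, Sum.elim_inr]
    split_ifs
    · exact mul_nonneg hε (by linarith [hdeg v])
    · exact le_rfl

theorem rate_hitX_upper (ε : ℝ) (hε : 0 ≤ ε) (S : ι → Finset V) (U : Finset V) (y : ι → ℝ)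
    (hy : ∀ i, 0 ≤ y i) (hdeg : ∀ v, dg S y v ≤ 1) (A : Finset V) (hA : A ⊆ U) (e : V) :
    ∑ k ∈ HitX S A e, rate ε S U y k ≤ ε * A.card := by
  refine le_trans ?_ (rate_hit_upper ε hε S U y hy A hA)
  exact Finset.sum_le_sum_of_subset_of_nonneg (Finset.filter_subset _ _)
    (fun k _ _ => rate_nonneg ε hε S U y hy hdeg k)

theorem rate_hitX_lower (ε : ℝ) (hε : 0 ≤ ε) (S : ι → Finset V) (U : Finset V) (y : ι → ℝ)
    (hy : ∀ i, 0 ≤ y i) (η : ℝ) (hco : ∀ u v, u ≠ v → cdg S y u v ≤ η)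
    (A : Finset V) (hA : A ⊆ U) (e : V) (he : e ∉ A) :
    ε * (A.card - (A.card : ℝ) * (A.card : ℝ) * η) ≤ ∑ k ∈ HitX S A e, rate ε S U y k := by
  have h1 := rate_hit_lower ε hε S U y hy η hco A hA
  have h2 : ∑ k ∈ Hit S A, rate ε S U y k = ∑ k ∈ HitX S A e, rate ε S U y k +
      ∑ k ∈ (Hit S A).filter (fun k => ¬ e ∉ TT S k), rate ε S U y k := by
    unfold HitX
    rw [Finset.sum_filter_add_sum_filter_not]
  have h3 : ∑ k ∈ (Hit S A).filter (fun k => ¬ e ∉ TT S k), rate ε S U y k ≤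
      ε * (A.card * η) := by
    unfold Hit
    rw [Finset.filter_filter, Finset.sum_filter, Fintype.sum_sum_type]
    have h4 : ∑ v : V, (if ¬ Disjoint (TT S (Sum.inr v)) A ∧ ¬ e ∉ TT S (Sum.inr v) then
        rate ε S U y (Sum.inr v) else 0) = 0 := by
      refine Finset.sum_eq_zero (fun v _ => ?_)
      rw [if_neg]
      simp only [TT, Sum.elim_inr, Finset.disjoint_singleton_left, not_not, Finset.mem_singleton]
      rintro ⟨hv, rfl⟩
      exact he hv
    rw [h4, add_zero]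
    have h5 : ∑ i : ι, (if ¬ Disjoint (TT S (Sum.inl i)) A ∧ ¬ e ∉ TT S (Sum.inl i) then
        rate ε S U y (Sum.inl i) else 0) ≤ ∑ v ∈ A, ε * cdg S y e v := by
      unfold cdg
      simp only [Finset.mul_sum, Finset.sum_filter]
      rw [Finset.sum_comm]
      refine Finset.sum_le_sum (fun i _ => ?_)
      simp only [TT, rate, Sum.elim_inl, not_not]
      have hnn : ∀ v ∈ A, 0 ≤ ε * if e ∈ S i ∧ v ∈ S i then y i else 0 := by
        intro v _
        refine mul_nonneg hε ?_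
        split_ifs
        · exact hy i
        · exact le_rfl
      split_ifs with h
      · obtain ⟨hd, hei⟩ := h
        obtain ⟨v, hv1, hv2⟩ := Finset.not_disjoint_iff.mp hd
        have := Finset.single_le_sum hnn hv2
        rw [if_pos ⟨hei, hv1⟩] at this
        exact this
      · exact Finset.sum_nonneg hnn
    refine h5.trans ?_
    rw [← Finset.mul_sum]
    refine mul_le_mul_of_nonneg_left ?_ hε
    have h6 : ∑ v ∈ A, cdg S y e v ≤ ∑ v ∈ A, η :=
      Finset.sum_le_sum (fun v hv => hco e v (fun h => he (h ▸ hv)))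
    rw [Finset.sum_const, nsmul_eq_mul] at h6
    exact h6
  rw [h2] at h1
  nlinarith

end Rates

end Pool.Agent.LibTuza
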