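import Mathlib
import Pool.Agent.LibTuza.Rates

namespace Pool.Agent.LibTuza

open Finset

section Moment

set_option linter.unusedSectionVars false

variable {V ι : Type*} [Fintype V] [DecidableEq V] [Fintype ι] [DecidableEq ι]

/-- The rescaled degree of `e` after one round (ignoring what happens to `e` itself). -/
noncomputable def Zf (ε : ℝ) (l : ℕ) (S : ι → Finset V) (y : ι → ℝ) (e : V)
    (g : ι ⊕ V → Bool) : ℝ :=
  ∑ i with e ∈ S i, Real.exp (ε * ((l : ℝ) - 1)) * y i *
    (if ∀ k ∈ HitX S ((S i).erase e) e, g k = false then (1 : ℝ) else 0)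

theorem hitX_union (S : ι → Finset V) (A B : Finset V) (e : V) :
    HitX S (A ∪ B) e = HitX S A e ∪ HitX S B e := by
  ext k
  simp only [HitX, Hit, Finset.mem_filter, Finset.mem_univ, true_and, Finset.mem_union,
    Finset.disjoint_union_right]
  tauto

theorem ExZ_lower (ε : ℝ) (hε : 0 ≤ ε) (l : ℕ) (S : ι → Finset V)
    (hcard : ∀ i, (S i).card = l) (U : Finset V) (y : ι → ℝ) (hy : ∀ i, 0 ≤ y i)
    (hyU : ∀ i, y i ≠ 0 → S i ⊆ U) (hdeg : ∀ v, dg S y v ≤ 1) (e : V) :
    dg S y e ≤ Ex (rate ε S U y) (Zf ε l S y e) := by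
  unfold Zf
  rw [Ex_sum]
  unfold dg
  refine Finset.sum_le_sum (fun i hi => ?_)
  rw [Ex_mul, Ex_avoid]
  by_cases h0 : y i = 0
  · rw [h0]; simp
  · have hei : e ∈ S i := (Finset.mem_filter.mp hi).2
    have hsub : (S i).erase e ⊆ U := (Finset.erase_subset _ _).trans (hyU i h0)
    have h1 := rate_hitX_upper ε hε S U y hy hdeg ((S i).erase e) hsub e
    have hc : (((S i).erase e).card : ℝ) = (l : ℝ) - 1 := by
      rw [Finset.card_erase_of_mem hei, Nat.cast_sub (Finset.card_pos.mpr ⟨e, hei⟩), hcard i]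
      simp
    rw [hc] at h1
    have h2 : 1 ≤ Real.exp (ε * ((l : ℝ) - 1)) *
        Real.exp (-∑ k ∈ HitX S ((S i).erase e) e, rate ε S U y k) := by
      rw [← Real.exp_add]
      refine Real.one_le_exp ?_
      linarith
    calc y i = y i * 1 := (mul_one _).symm
      _ ≤ y i * (Real.exp (ε * ((l : ℝ) - 1)) *
        Real.exp (-∑ k ∈ HitX S ((S i).erase e) e, rate ε S U y k)) :=
          mul_le_mul_of_nonneg_left h2 (hy i)
      _ = _ := by ring

theorem ExZ_sq (ε : ℝ) (hε : 0 ≤ ε) (l : ℕ) (S : ι → Finset V)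
    (hcard : ∀ i, (S i).card = l) (U : Finset V) (y : ι → ℝ) (hy : ∀ i, 0 ≤ y i)
    (hyU : ∀ i, y i ≠ 0 → S i ⊆ U) (hdeg : ∀ v, dg S y v ≤ 1) (η : ℝ) (hη : 0 ≤ η)
    (hco : ∀ u v, u ≠ v → cdg S y u v ≤ η) (e : V) :
    Ex (rate ε S U y) (fun g => Zf ε l S y e g ^ 2) ≤
      Real.exp (4 * ε * (l : ℝ) ^ 2 * η) * dg S y e ^ 2 +
        Real.exp (2 * ε * l) * (l : ℝ) * η := by
  have hrn := rate_nonneg ε hε S U y hy hdeg
  set c := Real.exp (ε * ((l : ℝ) - 1)) with hc
  have hcpos : 0 < c := Real.exp_pos _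
  set X1 := Real.exp (4 * ε * (l : ℝ) ^ 2 * η) with hX1
  set X2 := Real.exp (2 * ε * l) with hX2
  have hX1pos : 0 < X1 := Real.exp_pos _
  have hX2pos : 0 < X2 := Real.exp_pos _
  -- expand the square
  have hsq : (fun g => Zf ε l S y e g ^ 2) = fun g => ∑ i with e ∈ S i, ∑ j with e ∈ S j,
      (c ^ 2 * (y i * y j)) * (if ∀ k ∈ HitX S ((S i).erase e ∪ (S j).erase e) e, g k = false
        then (1 : ℝ) else 0) := by
    funext g
    unfold Zf
    rw [sq, Finset.sum_mul_sum]
    refine Finset.sum_congr rfl (fun i _ => Finset.sum_congr rfl (fun j _ => ?_))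
    have hind : (if ∀ k ∈ HitX S ((S i).erase e ∪ (S j).erase e) e, g k = false
        then (1 : ℝ) else 0) = (if ∀ k ∈ HitX S ((S i).erase e) e, g k = false
        then (1 : ℝ) else 0) * (if ∀ k ∈ HitX S ((S j).erase e) e, g k = false
        then (1 : ℝ) else 0) := by
      rw [hitX_union]
      by_cases h1 : ∀ k ∈ HitX S ((S i).erase e) e, g k = false
      · by_cases h2 : ∀ k ∈ HitX S ((S j).erase e) e, g k = false
        · have h3 : ∀ k ∈ HitX S ((S i).erase e) e ∪ HitX S ((S j).erase e) e, g k = false := by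
            intro k hk
            rcases Finset.mem_union.mp hk with h | h
            · exact h1 k h
            · exact h2 k h
          rw [if_pos h1, if_pos h2, if_pos h3, one_mul]
        · have h3 : ¬ ∀ k ∈ HitX S ((S i).erase e) e ∪ HitX S ((S j).erase e) e, g k = false :=
            fun hh => h2 (fun k hk => hh k (Finset.mem_union_right _ hk))
          rw [if_neg h2, if_neg h3, mul_zero]
      · have h3 : ¬ ∀ k ∈ HitX S ((S i).erase e) e ∪ HitX S ((S j).erase e) e, g k = false :=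
          fun hh => h1 (fun k hk => hh k (Finset.mem_union_left _ hk))
        rw [if_neg h1, if_neg h3, zero_mul]
    rw [hind]
    ring
  rw [hsq, Ex_sum]
  have hterm : ∀ i ∈ Finset.univ.filter (fun i => e ∈ S i),
      ∀ j ∈ Finset.univ.filter (fun j => e ∈ S j),
      Ex (rate ε S U y) (fun g => (c ^ 2 * (y i * y j)) *
        (if ∀ k ∈ HitX S ((S i).erase e ∪ (S j).erase e) e, g k = false then (1 : ℝ) else 0)) ≤
      X1 * (y i * y j) + X2 * (y i * (if ¬ Disjoint ((S i).erase e) (S j) then y j else 0)) := by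
    intro i hi j hj
    rw [Ex_mul, Ex_avoid]
    have hei : e ∈ S i := (Finset.mem_filter.mp hi).2
    have hej : e ∈ S j := (Finset.mem_filter.mp hj).2
    have hyij : 0 ≤ y i * y j := mul_nonneg (hy i) (hy j)
    by_cases h0 : y i = 0
    · rw [h0]; simp
    by_cases h0' : y j = 0
    · rw [h0']; simp
    have hsubi : (S i).erase e ⊆ U := (Finset.erase_subset _ _).trans (hyU i h0)
    have hsubj : (S j).erase e ⊆ U := (Finset.erase_subset _ _).trans (hyU j h0')
    have hci : ∀ i, e ∈ S i → (((S i).erase e).card : ℝ) = (l : ℝ) - 1 := by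
      intro i hei
      rw [Finset.card_erase_of_mem hei, Nat.cast_sub (Finset.card_pos.mpr ⟨e, hei⟩), hcard i]
      simp
    have hl1 : (1 : ℝ) ≤ l := by
      have : 0 < (S i).card := Finset.card_pos.mpr ⟨e, hei⟩
      rw [hcard i] at this
      exact_mod_cast this
    by_cases hd : ¬ Disjoint ((S i).erase e) (S j)
    · rw [if_pos hd]
      have h1 : Real.exp (-∑ k ∈ HitX S ((S i).erase e ∪ (S j).erase e) e, rate ε S U y k) ≤ 1 := by
        rw [Real.exp_le_one_iff]
        have := Finset.sum_nonneg (fun k (_ : k ∈ HitX S ((S i).erase e ∪ (S j).erase e) e) => hrn k)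
        linarith
      have h2 : c ^ 2 ≤ X2 := by
        rw [hc, hX2, ← Real.exp_nat_mul]
        refine Real.exp_le_exp.mpr ?_
        push_cast
        nlinarith
      have h3 : c ^ 2 * (y i * y j) * Real.exp (-∑ k ∈ HitX S ((S i).erase e ∪ (S j).erase e) e,
          rate ε S U y k) ≤ X2 * (y i * y j) * 1 := by
        refine mul_le_mul (mul_le_mul_of_nonneg_right h2 hyij) h1 (Real.exp_pos _).le ?_
        exact mul_nonneg hX2pos.le hyij
      have h4 : 0 ≤ X1 * (y i * y j) := mul_nonneg hX1pos.le hyij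
      linarith
    · rw [if_neg hd]
      push Not at hd
      have hdis : Disjoint ((S i).erase e) ((S j).erase e) :=
        hd.mono_right (Finset.erase_subset _ _)
      have he : e ∉ (S i).erase e ∪ (S j).erase e := by simp
      have h1 := rate_hitX_lower ε hε S U y hy η hco ((S i).erase e ∪ (S j).erase e)
        (Finset.union_subset hsubi hsubj) e he
      rw [Finset.card_union_of_disjoint hdis] at h1
      push_cast at h1
      rw [hci i hei, hci j hej] at h1
      have h2 : c ^ 2 * Real.exp (-∑ k ∈ HitX S ((S i).erase e ∪ (S j).erase e) e,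
          rate ε S U y k) ≤ X1 := by
        rw [hc, hX1, ← Real.exp_nat_mul, ← Real.exp_add]
        refine Real.exp_le_exp.mpr ?_
        push_cast
        have h5 : ε * ((((l : ℝ) - 1) + ((l : ℝ) - 1)) * (((l : ℝ) - 1) + ((l : ℝ) - 1)) * η) ≤
            4 * ε * (l : ℝ) ^ 2 * η := by
          have h6 : (((l : ℝ) - 1) + ((l : ℝ) - 1)) * (((l : ℝ) - 1) + ((l : ℝ) - 1)) ≤
              4 * (l : ℝ) ^ 2 := by nlinarith
          calc ε * ((((l : ℝ) - 1) + ((l : ℝ) - 1)) * (((l : ℝ) - 1) + ((l : ℝ) - 1)) * η)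
              = (((l : ℝ) - 1) + ((l : ℝ) - 1)) * (((l : ℝ) - 1) + ((l : ℝ) - 1)) * (ε * η) := by ring
            _ ≤ 4 * (l : ℝ) ^ 2 * (ε * η) := mul_le_mul_of_nonneg_right h6 (mul_nonneg hε hη)
            _ = _ := by ring
        nlinarith
      have h3 : c ^ 2 * (y i * y j) * Real.exp (-∑ k ∈ HitX S ((S i).erase e ∪ (S j).erase e) e,
          rate ε S U y k) = (y i * y j) * (c ^ 2 *
          Real.exp (-∑ k ∈ HitX S ((S i).erase e ∪ (S j).erase e) e, rate ε S U y k)) := by ring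
      rw [h3]
      have h4 := mul_le_mul_of_nonneg_left h2 hyij
      linarith
  have hsum : ∑ i with e ∈ S i, Ex (rate ε S U y) (fun g => ∑ j with e ∈ S j,
      (c ^ 2 * (y i * y j)) * (if ∀ k ∈ HitX S ((S i).erase e ∪ (S j).erase e) e, g k = false
        then (1 : ℝ) else 0)) ≤ ∑ i with e ∈ S i, ∑ j with e ∈ S j,
      (X1 * (y i * y j) + X2 * (y i * (if ¬ Disjoint ((S i).erase e) (S j) then y j else 0))) := by
    refine Finset.sum_le_sum (fun i hi => ?_)
    rw [Ex_sum]
    exact Finset.sum_le_sum (fun j hj => hterm i hi j hj)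
  refine hsum.trans ?_
  have hA : ∑ i with e ∈ S i, ∑ j with e ∈ S j, X1 * (y i * y j) = X1 * dg S y e ^ 2 := by
    unfold dg
    rw [sq, Finset.sum_mul_sum, Finset.mul_sum]
    refine Finset.sum_congr rfl (fun i _ => ?_)
    rw [Finset.mul_sum]
  have hB : ∀ i ∈ Finset.univ.filter (fun i => e ∈ S i),
      ∑ j with e ∈ S j, X2 * (y i * (if ¬ Disjoint ((S i).erase e) (S j) then y j else 0)) ≤
      y i * (X2 * ((l : ℝ) * η)) := by
    intro i hi
    have hei : e ∈ S i := (Finset.mem_filter.mp hi).2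
    have h1 : ∑ j with e ∈ S j, (if ¬ Disjoint ((S i).erase e) (S j) then y j else 0) ≤
        ∑ v ∈ (S i).erase e, cdg S y e v := by
      unfold cdg
      simp only [Finset.sum_filter]
      rw [Finset.sum_comm]
      refine Finset.sum_le_sum (fun j _ => ?_)
      have hnn : ∀ v ∈ (S i).erase e, 0 ≤ if e ∈ S j ∧ v ∈ S j then y j else 0 := by
        intro v _
        split_ifs
        · exact hy j
        · exact le_rfl
      by_cases hej : e ∈ S j
      · rw [if_pos hej]
        by_cases hd : ¬ Disjoint ((S i).erase e) (S j)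
        · rw [if_pos hd]
          obtain ⟨v, hv1, hv2⟩ := Finset.not_disjoint_iff.mp hd
          have := Finset.single_le_sum hnn hv1
          rw [if_pos ⟨hej, hv2⟩] at this
          exact this
        · rw [if_neg hd]
          exact Finset.sum_nonneg hnn
      · rw [if_neg hej]
        exact Finset.sum_nonneg hnn
    have h2 : ∑ v ∈ (S i).erase e, cdg S y e v ≤ (l : ℝ) * η := by
      have h3 : ∑ v ∈ (S i).erase e, cdg S y e v ≤ ∑ v ∈ (S i).erase e, η :=
        Finset.sum_le_sum (fun v hv => hco e v (Finset.ne_of_mem_erase hv).symm)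
      rw [Finset.sum_const, nsmul_eq_mul] at h3
      refine h3.trans (mul_le_mul_of_nonneg_right ?_ hη)
      have : ((S i).erase e).card ≤ l := by
        rw [← hcard i]; exact Finset.card_le_card (Finset.erase_subset _ _)
      exact_mod_cast this
    have h4 : ∑ j with e ∈ S j, X2 * (y i * (if ¬ Disjoint ((S i).erase e) (S j) then y j else 0))
        = (y i * X2) * ∑ j with e ∈ S j, (if ¬ Disjoint ((S i).erase e) (S j) then y j else 0) := by
      rw [Finset.mul_sum]
      exact Finset.sum_congr rfl (fun j _ => by ring)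
    rw [h4]
    calc (y i * X2) * ∑ j with e ∈ S j, (if ¬ Disjoint ((S i).erase e) (S j) then y j else 0)
        ≤ (y i * X2) * ((l : ℝ) * η) :=
          mul_le_mul_of_nonneg_left (h1.trans h2) (mul_nonneg (hy i) hX2pos.le)
      _ = _ := by ring
  have hB' : ∑ i with e ∈ S i, ∑ j with e ∈ S j,
      X2 * (y i * (if ¬ Disjoint ((S i).erase e) (S j) then y j else 0)) ≤ X2 * (l : ℝ) * η := by
    refine (Finset.sum_le_sum hB).trans ?_
    rw [← Finset.sum_mul]
    have h1 : ∑ i with e ∈ S i, y i ≤ 1 := hdeg e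
    have h2 : 0 ≤ X2 * ((l : ℝ) * η) := mul_nonneg hX2pos.le (mul_nonneg (Nat.cast_nonneg _) hη)
    calc (∑ i with e ∈ S i, y i) * (X2 * ((l : ℝ) * η)) ≤ 1 * (X2 * ((l : ℝ) * η)) :=
          mul_le_mul_of_nonneg_right h1 h2
      _ = _ := by ring
  have hsplit : ∑ i with e ∈ S i, ∑ j with e ∈ S j,
      (X1 * (y i * y j) + X2 * (y i * (if ¬ Disjoint ((S i).erase e) (S j) then y j else 0))) =
      ∑ i with e ∈ S i, ∑ j with e ∈ S j, X1 * (y i * y j) + ∑ i with e ∈ S i, ∑ j with e ∈ S j,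
      X2 * (y i * (if ¬ Disjoint ((S i).erase e) (S j) then y j else 0)) := by
    rw [← Finset.sum_add_distrib]
    exact Finset.sum_congr rfl (fun i _ => Finset.sum_add_distrib)
  rw [hsplit, hA]
  linarith

/-- Error term. -/
noncomputable def errT (ε τ : ℝ) (l : ℕ) (η : ℝ) : ℝ :=
  τ + ((Real.exp (4 * ε * (l : ℝ) ^ 2 * η) - 1) + Real.exp (2 * ε * l) * (l : ℝ) * η) / (4 * τ)

theorem ExZ_excess (ε : ℝ) (hε : 0 ≤ ε) (l : ℕ) (S : ι → Finset V)
    (hcard : ∀ i, (S i).card = l) (U : Finset V) (y : ι → ℝ) (hy : ∀ i, 0 ≤ y i)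
    (hyU : ∀ i, y i ≠ 0 → S i ⊆ U) (hdeg : ∀ v, dg S y v ≤ 1) (η : ℝ) (hη : 0 ≤ η)
    (hco : ∀ u v, u ≠ v → cdg S y u v ≤ η) (τ : ℝ) (hτ : 0 < τ) (e : V) :
    Ex (rate ε S U y) (fun g => max (Zf ε l S y e g - 1) 0) ≤ errT ε τ l η := by
  have hrn := rate_nonneg ε hε S U y hy hdeg
  set d := dg S y e with hd
  have hd0 : 0 ≤ d := Finset.sum_nonneg (fun i _ => hy i)
  have hd1 : d ≤ 1 := hdeg e
  have hpt : ∀ g, max (Zf ε l S y e g - 1) 0 ≤
      τ + (1 / (4 * τ)) * (Zf ε l S y e g ^ 2 - 2 * d * Zf ε l S y e g + d ^ 2) := by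
    intro g
    set z := Zf ε l S y e g with hz
    have h1 : z ^ 2 - 2 * d * z + d ^ 2 = (z - d) ^ 2 := by ring
    rw [h1]
    have h2 : 0 ≤ (1 / (4 * τ)) * (z - d) ^ 2 := by positivity
    refine max_le ?_ (by linarith)
    have h3 : z - d ≤ τ + (1 / (4 * τ)) * (z - d) ^ 2 := by
      have h4 : 0 ≤ (1 / (4 * τ)) * ((z - d) - 2 * τ) ^ 2 := by positivity
      have h5 : (1 / (4 * τ)) * ((z - d) - 2 * τ) ^ 2 = (1 / (4 * τ)) * (z - d) ^ 2 - (z - d) + τ := by
        field_simp
        ring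
      linarith
    linarith
  refine (Ex_mono _ hrn _ _ hpt).trans ?_
  have h6 : Ex (rate ε S U y) (fun g => τ + (1 / (4 * τ)) * (Zf ε l S y e g ^ 2 -
      2 * d * Zf ε l S y e g + d ^ 2)) = τ + (1 / (4 * τ)) *
      (Ex (rate ε S U y) (fun g => Zf ε l S y e g ^ 2) -
        2 * d * Ex (rate ε S U y) (Zf ε l S y e) + d ^ 2) := by
    rw [Ex_add, Ex_const, Ex_mul, Ex_add, Ex_sub, Ex_const, Ex_mul]
  rw [h6]
  unfold errT
  have h7 := ExZ_sq ε hε l S hcard U y hy hyU hdeg η hη hco e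
  have h8 := ExZ_lower ε hε l S hcard U y hy hyU hdeg e
  rw [← hd] at h7 h8
  have h9 : Ex (rate ε S U y) (fun g => Zf ε l S y e g ^ 2) -
        2 * d * Ex (rate ε S U y) (Zf ε l S y e) + d ^ 2 ≤
      (Real.exp (4 * ε * (l : ℝ) ^ 2 * η) - 1) + Real.exp (2 * ε * l) * (l : ℝ) * η := by
    have h10 : 2 * d * d ≤ 2 * d * Ex (rate ε S U y) (Zf ε l S y e) :=
      mul_le_mul_of_nonneg_left h8 (by linarith)
    have h11 : 0 ≤ Real.exp (4 * ε * (l : ℝ) ^ 2 * η) - 1 := by
      have : 1 ≤ Real.exp (4 * ε * (l : ℝ) ^ 2 * η) := Real.one_le_exp (by positivity)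
      linarith
    have h12 : (Real.exp (4 * ε * (l : ℝ) ^ 2 * η) - 1) * d ^ 2 ≤
        (Real.exp (4 * ε * (l : ℝ) ^ 2 * η) - 1) * 1 :=
      mul_le_mul_of_nonneg_left (by nlinarith) h11
    nlinarith
  have h13 : 0 ≤ 1 / (4 * τ) := by positivity
  have h14 := mul_le_mul_of_nonneg_left h9 h13
  have h15 : ((Real.exp (4 * ε * (l : ℝ) ^ 2 * η) - 1) + Real.exp (2 * ε * l) * (l : ℝ) * η) / (4 * τ)
      = (1 / (4 * τ)) * ((Real.exp (4 * ε * (l : ℝ) ^ 2 * η) - 1) +
        Real.exp (2 * ε * l) * (l : ℝ) * η) := by ring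
  rw [h15]
  linarith

end Moment

end Pool.Agent.LibTuza
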