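import Mathlib
import Pool.Agent.LibTuza.Moment

namespace Pool.Agent.LibTuza

open Finset

section Step

set_option linter.unusedSectionVars false

variable {V ι : Type*} [Fintype V] [DecidableEq V] [Fintype ι] [DecidableEq ι]

theorem weierstrass (s : Finset V) (b : V → ℝ) (h0 : ∀ v, 0 ≤ b v) (h1 : ∀ v, b v ≤ 1) :
    1 - ∏ v ∈ s, b v ≤ ∑ v ∈ s, (1 - b v) := by
  induction s using Finset.induction_on with
  | empty => simp
  | insert a s ha ih =>
    rw [Finset.prod_insert ha, Finset.sum_insert ha]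
    have hp0 : 0 ≤ ∏ v ∈ s, b v := Finset.prod_nonneg (fun v _ => h0 v)
    have hp1 : ∏ v ∈ s, b v ≤ 1 := Finset.prod_le_one (fun v _ => h0 v) (fun v _ => h1 v)
    nlinarith [h0 a, h1 a]

theorem truncate (S : ι → Finset V) (z : ι → ℝ) (hz : ∀ i, 0 ≤ z i) :
    ∃ y' : ι → ℝ, (∀ i, 0 ≤ y' i) ∧ (∀ i, y' i ≤ z i) ∧ (∀ v, dg S y' v ≤ 1) ∧
      ∑ i, z i - ∑ v, max (dg S z v - 1) 0 ≤ ∑ i, y' i := by
  have hdg0 : ∀ v, 0 ≤ dg S z v := fun v => Finset.sum_nonneg (fun i _ => hz i)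
  let b : V → ℝ := fun v => 1 / max 1 (dg S z v)
  have hmax : ∀ v, 0 < max 1 (dg S z v) := fun v => lt_of_lt_of_le one_pos (le_max_left _ _)
  have hb0 : ∀ v, 0 ≤ b v := fun v => div_nonneg zero_le_one (hmax v).le
  have hb1 : ∀ v, b v ≤ 1 := by
    intro v
    simp only [b]
    rw [div_le_one (hmax v)]
    exact le_max_left _ _
  refine ⟨fun i => z i * ∏ v ∈ S i, b v, ?_, ?_, ?_, ?_⟩
  · intro i
    exact mul_nonneg (hz i) (Finset.prod_nonneg (fun v _ => hb0 v))
  · intro i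
    calc z i * ∏ v ∈ S i, b v ≤ z i * 1 :=
          mul_le_mul_of_nonneg_left (Finset.prod_le_one (fun v _ => hb0 v) (fun v _ => hb1 v)) (hz i)
      _ = z i := mul_one _
  · intro v
    have h1 : dg S (fun i => z i * ∏ v ∈ S i, b v) v ≤ dg S z v * b v := by
      unfold dg
      rw [Finset.sum_mul]
      refine Finset.sum_le_sum (fun i hi => ?_)
      have hvi : v ∈ S i := (Finset.mem_filter.mp hi).2
      refine mul_le_mul_of_nonneg_left ?_ (hz i)
      rw [← Finset.mul_prod_erase (S i) b hvi]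
      calc b v * ∏ x ∈ (S i).erase v, b x ≤ b v * 1 :=
            mul_le_mul_of_nonneg_left (Finset.prod_le_one (fun v _ => hb0 v) (fun v _ => hb1 v))
              (hb0 v)
        _ = b v := mul_one _
    refine h1.trans ?_
    simp only [b]
    rw [mul_one_div, div_le_one (hmax v)]
    exact le_max_right _ _
  · have h2 : ∑ i, z i - ∑ i, z i * ∏ v ∈ S i, b v ≤ ∑ v, max (dg S z v - 1) 0 := by
      rw [← Finset.sum_sub_distrib]
      have h3 : ∀ i, z i - z i * ∏ v ∈ S i, b v ≤ ∑ v, (if v ∈ S i then z i * (1 - b v) else 0) := by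
        intro i
        have h4 := mul_le_mul_of_nonneg_left (weierstrass (S i) b hb0 hb1) (hz i)
        rw [← Finset.sum_filter, Finset.filter_mem_eq_inter, Finset.univ_inter, ← Finset.mul_sum]
        linarith
      refine (Finset.sum_le_sum (fun i _ => h3 i)).trans ?_
      rw [Finset.sum_comm]
      refine Finset.sum_le_sum (fun v _ => ?_)
      rw [← Finset.sum_filter, ← Finset.sum_mul]
      change dg S z v * (1 - 1 / max 1 (dg S z v)) ≤ _
      rcases le_total (dg S z v) 1 with h | h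
      · rw [max_eq_left h]
        simp
      · rw [max_eq_right h, max_eq_left (by linarith)]
        have : dg S z v ≠ 0 := by intro h0; rw [h0] at h; linarith
        field_simp
        exact le_rfl
    linarith

/-- Surviving points. -/
def Surv (S : ι → Finset V) (U : Finset V) (g : ι ⊕ V → Bool) : Finset V :=
  U.filter (fun v => ∀ k ∈ Hit S {v}, g k = false)

/-- Possible conflicts of `i`. -/
def Conf (S : ι → Finset V) (i : ι) : Finset (ι ⊕ V) :=
  ((Hit S (S i)).filter (fun k => k.isLeft = true)).erase (Sum.inl i)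

/-- Isolated picks. -/
noncomputable def Iso (S : ι → Finset V) (y : ι → ℝ) (g : ι ⊕ V → Bool) : Finset ι :=
  Finset.univ.filter (fun i => y i ≠ 0 ∧ (g (Sum.inl i) = true ∧ ∀ k ∈ Conf S i, g k = false))

/-- New weights before truncation. -/
noncomputable def znew (ε : ℝ) (l : ℕ) (S : ι → Finset V) (y : ι → ℝ) (g : ι ⊕ V → Bool)
    (i : ι) : ℝ :=
  Real.exp (ε * ((l : ℝ) - 1)) * y i * (if ∀ k ∈ Hit S (S i), g k = false then (1 : ℝ) else 0)

theorem znew_nonneg (ε : ℝ) (l : ℕ) (S : ι → Finset V) (y : ι → ℝ) (hy : ∀ i, 0 ≤ y i)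
    (g : ι ⊕ V → Bool) (i : ι) : 0 ≤ znew ε l S y g i := by
  unfold znew
  refine mul_nonneg (mul_nonneg (Real.exp_pos _).le (hy i)) ?_
  split_ifs <;> norm_num

theorem dg_znew_le (ε : ℝ) (l : ℕ) (S : ι → Finset V) (y : ι → ℝ) (hy : ∀ i, 0 ≤ y i)
    (g : ι ⊕ V → Bool) (v : V) : dg S (znew ε l S y g) v ≤ Zf ε l S y v g := by
  unfold dg Zf znew
  refine Finset.sum_le_sum (fun i hi => ?_)
  refine mul_le_mul_of_nonneg_left ?_ (mul_nonneg (Real.exp_pos _).le (hy i))
  by_cases h : ∀ k ∈ Hit S (S i), g k = false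
  · rw [if_pos h, if_pos]
    intro k hk
    refine h k ?_
    simp only [HitX, Hit, Finset.mem_filter, Finset.mem_univ, true_and] at hk ⊢
    intro hd
    exact hk.1 (hd.mono_right (Finset.erase_subset _ _))
  · rw [if_neg h]
    split_ifs <;> norm_num

theorem surv_of_znew (ε : ℝ) (l : ℕ) (S : ι → Finset V) (U : Finset V) (y : ι → ℝ)
    (hyU : ∀ i, y i ≠ 0 → S i ⊆ U) (g : ι ⊕ V → Bool) (i : ι) (h : znew ε l S y g i ≠ 0) :
    S i ⊆ Surv S U g := by
  have hy0 : y i ≠ 0 := by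
    intro h0
    apply h
    unfold znew
    rw [h0]; ring
  have hav : ∀ k ∈ Hit S (S i), g k = false := by
    by_contra hc
    apply h
    unfold znew
    rw [if_neg hc, mul_zero]
  intro v hv
  refine Finset.mem_filter.mpr ⟨hyU i hy0 hv, ?_⟩
  intro k hk
  refine hav k ?_
  simp only [Hit, Finset.mem_filter, Finset.mem_univ, true_and] at hk ⊢
  intro hd
  exact hk (hd.mono_right (Finset.singleton_subset_iff.mpr hv))

theorem sum_y_le (S : ι → Finset V) (l : ℕ) (hl : 1 ≤ l) (hcard : ∀ i, (S i).card = l)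
    (U : Finset V) (y : ι → ℝ) (hy : ∀ i, 0 ≤ y i)
    (hyU : ∀ i, y i ≠ 0 → S i ⊆ U) (hdeg : ∀ v, dg S y v ≤ 1) : ∑ i, y i ≤ U.card := by
  have h1 : ∑ v ∈ U, dg S y v ≤ U.card := by
    have := Finset.sum_le_card_nsmul U (fun v => dg S y v) 1 (fun v _ => hdeg v)
    simpa using this
  refine le_trans ?_ h1
  rw [sum_dg]
  refine Finset.sum_le_sum (fun i _ => ?_)
  by_cases h0 : y i = 0
  · rw [h0]; simp
  · have h2 : (U.filter (fun v => v ∈ S i)) = S i := by
      rw [Finset.filter_mem_eq_inter]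
      exact Finset.inter_eq_right.mpr (hyU i h0)
    rw [h2, hcard i]
    have : (1 : ℝ) ≤ l := by exact_mod_cast hl
    nlinarith [hy i]

theorem Ex_surv (ε : ℝ) (S : ι → Finset V) (U : Finset V) (y : ι → ℝ) :
    Ex (rate ε S U y) (fun g => ((Surv S U g).card : ℝ)) = Real.exp (-ε) * U.card := by
  have h1 : (fun g => ((Surv S U g).card : ℝ)) =
      fun g => ∑ v ∈ U, (if ∀ k ∈ Hit S {v}, g k = false then (1 : ℝ) else 0) := by
    funext g
    unfold Surv
    rw [Finset.card_filter]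
    push_cast
    rfl
  rw [h1, Ex_sum]
  have h2 : ∀ v ∈ U, Ex (rate ε S U y) (fun g => if ∀ k ∈ Hit S {v}, g k = false then (1 : ℝ) else 0)
      = Real.exp (-ε) := by
    intro v hv
    rw [Ex_avoid, rate_hit_single ε S U y v hv]
  rw [Finset.sum_congr rfl h2, Finset.sum_const, nsmul_eq_mul]
  ring

theorem Ex_znew (ε : ℝ) (hε : 0 ≤ ε) (l : ℕ) (S : ι → Finset V)
    (hcard : ∀ i, (S i).card = l) (U : Finset V) (y : ι → ℝ) (hy : ∀ i, 0 ≤ y i)
    (hyU : ∀ i, y i ≠ 0 → S i ⊆ U) :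
    Real.exp (-ε) * ∑ i, y i ≤ Ex (rate ε S U y) (fun g => ∑ i, znew ε l S y g i) := by
  rw [Ex_sum, Finset.mul_sum]
  refine Finset.sum_le_sum (fun i _ => ?_)
  unfold znew
  rw [Ex_mul, Ex_avoid]
  by_cases h0 : y i = 0
  · rw [h0]; simp
  · have h1 := rate_hit_upper ε hε S U y hy (S i) (hyU i h0)
    rw [hcard i] at h1
    have h2 : Real.exp (-ε) ≤ Real.exp (ε * ((l : ℝ) - 1)) *
        Real.exp (-∑ k ∈ Hit S (S i), rate ε S U y k) := by
      rw [← Real.exp_add]
      refine Real.exp_le_exp.mpr ?_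
      linarith
    calc Real.exp (-ε) * y i ≤ (Real.exp (ε * ((l : ℝ) - 1)) *
        Real.exp (-∑ k ∈ Hit S (S i), rate ε S U y k)) * y i :=
          mul_le_mul_of_nonneg_right h2 (hy i)
      _ = _ := by ring

theorem one_sub_exp_bounds (x : ℝ) (hx : 0 ≤ x) :
    x - x ^ 2 ≤ 1 - Real.exp (-x) ∧ 1 - Real.exp (-x) ≤ x := by
  constructor
  · have h1 : 1 + x ≤ Real.exp x := by linarith [Real.add_one_le_exp x]
    have h2 : Real.exp (-x) ≤ 1 / (1 + x) := by
      rw [Real.exp_neg, ← one_div]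
      exact one_div_le_one_div_of_le (by linarith) h1
    have h3 : 1 / (1 + x) ≤ 1 - x + x ^ 2 := by
      rw [div_le_iff₀ (by linarith)]
      have : 0 ≤ x ^ 3 := by positivity
      nlinarith
    linarith
  · have := Real.add_one_le_exp (-x)
    linarith

theorem Ex_iso (ε : ℝ) (hε : 0 ≤ ε) (l : ℕ) (hl : 1 ≤ l) (S : ι → Finset V)
    (hcard : ∀ i, (S i).card = l) (U : Finset V) (y : ι → ℝ) (hy : ∀ i, 0 ≤ y i)
    (hyU : ∀ i, y i ≠ 0 → S i ⊆ U) (hdeg : ∀ v, dg S y v ≤ 1) :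
    (ε - ((l : ℝ) + 1) * ε ^ 2) * ∑ i, y i ≤
      Ex (rate ε S U y) (fun g => ((Iso S y g).card : ℝ)) := by
  have hrn := rate_nonneg ε hε S U y hy hdeg
  have h1 : (fun g => ((Iso S y g).card : ℝ)) =
      fun g => ∑ i with y i ≠ 0, (if g (Sum.inl i) = true ∧ ∀ k ∈ Conf S i, g k = false
        then (1 : ℝ) else 0) := by
    funext g
    unfold Iso
    rw [← Finset.filter_filter, Finset.card_filter]
    push_cast
    rfl
  rw [h1, Ex_sum, Finset.mul_sum]
  have h0 : ∑ i, (ε - ((l : ℝ) + 1) * ε ^ 2) * y i =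
      ∑ i with y i ≠ 0, (ε - ((l : ℝ) + 1) * ε ^ 2) * y i := by
    rw [Finset.sum_filter]
    refine Finset.sum_congr rfl (fun i _ => ?_)
    by_cases h : y i = 0
    · simp [h]
    · simp [h]
  rw [h0]
  refine Finset.sum_le_sum (fun i hi => ?_)
  have hyi : y i ≠ 0 := (Finset.mem_filter.mp hi).2
  have hnot : Sum.inl i ∉ Conf S i := Finset.notMem_erase _ _
  rw [Ex_pick_avoid _ _ _ hnot]
  have hyi1 : y i ≤ 1 := by
    obtain ⟨v, hv⟩ : (S i).Nonempty := by
      rw [← Finset.card_pos, hcard i]; omega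
    have := Finset.single_le_sum (s := Finset.univ.filter (fun j => v ∈ S j)) (f := y)
      (fun j _ => hy j) (Finset.mem_filter.mpr ⟨Finset.mem_univ i, hv⟩)
    exact this.trans (hdeg v)
  have hsumle : ∑ k ∈ Conf S i, rate ε S U y k ≤ ε * l := by
    have h2 := rate_hit_upper ε hε S U y hy (S i) (hyU i hyi)
    rw [hcard i] at h2
    refine le_trans ?_ h2
    refine Finset.sum_le_sum_of_subset_of_nonneg ?_ (fun k _ _ => hrn k)
    exact (Finset.erase_subset _ _).trans (Finset.filter_subset _ _)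
  have hr : rate ε S U y (Sum.inl i) = ε * y i := rfl
  rw [hr]
  have hx0 : 0 ≤ ε * y i := mul_nonneg hε (hy i)
  obtain ⟨hb1, hb2⟩ := one_sub_exp_bounds (ε * y i) hx0
  have hE : 1 - ε * l ≤ Real.exp (-∑ k ∈ Conf S i, rate ε S U y k) := by
    have := Real.add_one_le_exp (-∑ k ∈ Conf S i, rate ε S U y k)
    linarith
  have hE1 : Real.exp (-∑ k ∈ Conf S i, rate ε S U y k) ≤ 1 := by
    rw [Real.exp_le_one_iff]
    have := Finset.sum_nonneg (fun k (_ : k ∈ Conf S i) => hrn k)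
    linarith
  set E := Real.exp (-∑ k ∈ Conf S i, rate ε S U y k) with hEdef
  set p := 1 - Real.exp (-(ε * y i)) with hp
  -- p * E = p - (1-E) p ≥ (x - x^2) - (1-E) x
  have hp0 : 0 ≤ p := by
    rw [hp]
    have : Real.exp (-(ε * y i)) ≤ 1 := Real.exp_le_one_iff.mpr (by linarith)
    linarith
  have h3 : (1 - E) * p ≤ (ε * l) * (ε * y i) := by
    refine mul_le_mul (by linarith) hb2 hp0 ?_
    exact mul_nonneg hε (Nat.cast_nonneg _)
  have h4 : (ε * y i) ^ 2 ≤ ε ^ 2 * y i := by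
    have : y i ^ 2 ≤ y i := by nlinarith [hy i]
    nlinarith [sq_nonneg ε]
  nlinarith

theorem nibble_step (ε τ η β : ℝ) (hε : 0 < ε) (hε1 : ε ≤ 1) (hτ : 0 < τ) (hη : 0 ≤ η)
    (hβ : 0 ≤ β) (l : ℕ) (hl : 1 ≤ l) (S : ι → Finset V)
    (hcard : ∀ i, (S i).card = l) (U : Finset V) (y : ι → ℝ) (hy : ∀ i, 0 ≤ y i)
    (hyU : ∀ i, y i ≠ 0 → S i ⊆ U) (hdeg : ∀ v, dg S y v ≤ 1)
    (hco : ∀ u v, u ≠ v → cdg S y u v ≤ η) :
    ∃ (M : Finset ι) (U' : Finset V) (y' : ι → ℝ), U' ⊆ U ∧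
      (∀ i ∈ M, y i ≠ 0 ∧ Disjoint (S i) U') ∧
      (∀ i ∈ M, ∀ j ∈ M, i ≠ j → Disjoint (S i) (S j)) ∧
      (∀ i, 0 ≤ y' i) ∧ (∀ i, y' i ≤ Real.exp (ε * ((l : ℝ) - 1)) * y i) ∧
      (∀ i, y' i ≠ 0 → S i ⊆ U') ∧ (∀ v, dg S y' v ≤ 1) ∧
      ∑ i, y i - (((l : ℝ) + 1) * ε ^ 2 + errT ε τ l η + β * Real.exp (-ε)) * U.card ≤
        (M.card : ℝ) + ∑ i, y' i - β * U'.card := by
  have hrn := rate_nonneg ε hε.le S U y hy hdeg
  obtain ⟨g, hg⟩ := exists_ge_Ex (rate ε S U y) hrn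
    (fun g => ((Iso S y g).card : ℝ) + ∑ i, znew ε l S y g i -
      ∑ v ∈ U, max (Zf ε l S y v g - 1) 0 - β * ((Surv S U g).card : ℝ))
  obtain ⟨y', hy'0, hy'z, hy'd, hy's⟩ := truncate S (znew ε l S y g)
    (znew_nonneg ε l S y hy g)
  refine ⟨Iso S y g, Surv S U g, y', Finset.filter_subset _ _, ?_, ?_, hy'0, ?_, ?_, hy'd, ?_⟩
  · intro i hi
    obtain ⟨hyi, hgi, _⟩ := (Finset.mem_filter.mp hi).2
    refine ⟨hyi, ?_⟩
    rw [Finset.disjoint_left]
    intro v hv hvs
    have := (Finset.mem_filter.mp hvs).2 (Sum.inl i) (by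
      simp only [Hit, Finset.mem_filter, Finset.mem_univ, true_and, TT, Sum.elim_inl,
        Finset.disjoint_singleton_right, not_not]
      exact hv)
    rw [hgi] at this
    exact Bool.noConfusion this
  · intro i hi j hj hij
    obtain ⟨_, _, hci⟩ := (Finset.mem_filter.mp hi).2
    obtain ⟨_, hgj, _⟩ := (Finset.mem_filter.mp hj).2
    by_contra hd
    have := hci (Sum.inl j) (by
      unfold Conf Hit
      rw [Finset.mem_erase, Finset.mem_filter, Finset.mem_filter]
      refine ⟨fun h => hij (Sum.inl_injective h).symm, ⟨Finset.mem_univ _, ?_⟩, rfl⟩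
      intro hd'
      exact hd hd'.symm)
    rw [hgj] at this
    exact Bool.noConfusion this
  · intro i
    refine (hy'z i).trans ?_
    unfold znew
    have h0 : 0 ≤ Real.exp (ε * ((l : ℝ) - 1)) * y i := mul_nonneg (Real.exp_pos _).le (hy i)
    split_ifs
    · rw [mul_one]
    · rw [mul_zero]; exact h0
  · intro i hi
    refine surv_of_znew ε l S U y hyU g i ?_
    intro h0
    apply hi
    have h1 := hy'z i
    rw [h0] at h1
    exact le_antisymm h1 (hy'0 i)
  · -- main estimate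
    have hexc : ∑ v, max (dg S (znew ε l S y g) v - 1) 0 ≤
        ∑ v ∈ U, max (Zf ε l S y v g - 1) 0 := by
      have h1 : ∑ v, max (dg S (znew ε l S y g) v - 1) 0 =
          ∑ v ∈ U, max (dg S (znew ε l S y g) v - 1) 0 := by
        rw [eq_comm]
        refine Finset.sum_subset (Finset.subset_univ _) (fun v _ hv => ?_)
        have h2 : dg S (znew ε l S y g) v = 0 := by
          unfold dg
          refine Finset.sum_eq_zero (fun i hi => ?_)
          by_contra h3
          have h4 := surv_of_znew ε l S U y hyU g i h3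
          exact hv ((Finset.mem_filter.mp (h4 (Finset.mem_filter.mp hi).2)).1)
        rw [h2]; simp
      rw [h1]
      refine Finset.sum_le_sum (fun v _ => ?_)
      exact max_le_max (by linarith [dg_znew_le ε l S y hy g v]) le_rfl
    have hEx : Ex (rate ε S U y) (fun g => ((Iso S y g).card : ℝ) + ∑ i, znew ε l S y g i -
      ∑ v ∈ U, max (Zf ε l S y v g - 1) 0 - β * ((Surv S U g).card : ℝ)) =
      Ex (rate ε S U y) (fun g => ((Iso S y g).card : ℝ)) +
      Ex (rate ε S U y) (fun g => ∑ i, znew ε l S y g i) -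
      ∑ v ∈ U, Ex (rate ε S U y) (fun g => max (Zf ε l S y v g - 1) 0) -
      β * (Real.exp (-ε) * U.card) := by
      rw [Ex_sub, Ex_sub, Ex_add,
        Ex_sum (rate ε S U y) U (fun v g => max (Zf ε l S y v g - 1) 0), Ex_mul, Ex_surv]
    have hI := Ex_iso ε hε.le l hl S hcard U y hy hyU hdeg
    have hZ := Ex_znew ε hε.le l S hcard U y hy hyU
    have hX : ∑ v ∈ U, Ex (rate ε S U y) (fun g => max (Zf ε l S y v g - 1) 0) ≤
        errT ε τ l η * U.card := by
      have := Finset.sum_le_card_nsmul U _ (errT ε τ l η)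
        (fun v _ => ExZ_excess ε hε.le l S hcard U y hy hyU hdeg η hη hco τ hτ v)
      rw [nsmul_eq_mul] at this
      linarith
    have hW := sum_y_le S l hl hcard U y hy hyU hdeg
    have hW0 : 0 ≤ ∑ i, y i := Finset.sum_nonneg (fun i _ => hy i)
    have hexp : 1 - ε ≤ Real.exp (-ε) := by
      have := Real.add_one_le_exp (-ε)
      linarith
    have h5 : (1 - ε) * ∑ i, y i ≤ Real.exp (-ε) * ∑ i, y i :=
      mul_le_mul_of_nonneg_right hexp hW0
    have h6 : ((l : ℝ) + 1) * ε ^ 2 * ∑ i, y i ≤ ((l : ℝ) + 1) * ε ^ 2 * U.card :=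
      mul_le_mul_of_nonneg_left hW (by positivity)
    rw [hEx] at hg
    linarith

end Step

end Pool.Agent.LibTuza
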