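import Mathlib
import Pool.Agent.LibTuza.Step

namespace Pool.Agent.LibTuza

open Finset

section Nibble

set_option linter.unusedSectionVars false

variable {V ι : Type*} [Fintype V] [DecidableEq V] [Fintype ι] [DecidableEq ι]

theorem errT_mono (ε τ : ℝ) (hε : 0 < ε) (hτ : 0 < τ) (l : ℕ) (η η' : ℝ) (h : η ≤ η') :
    errT ε τ l η ≤ errT ε τ l η' := by
  unfold errT
  have h1 : Real.exp (4 * ε * (l : ℝ) ^ 2 * η) ≤ Real.exp (4 * ε * (l : ℝ) ^ 2 * η') :=
    Real.exp_le_exp.mpr (mul_le_mul_of_nonneg_left h (by positivity))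
  have h2 : Real.exp (2 * ε * l) * (l : ℝ) * η ≤ Real.exp (2 * ε * l) * (l : ℝ) * η' :=
    mul_le_mul_of_nonneg_left h (by positivity)
  have h3 : ((Real.exp (4 * ε * (l : ℝ) ^ 2 * η) - 1) + Real.exp (2 * ε * l) * (l : ℝ) * η) / (4 * τ)
      ≤ ((Real.exp (4 * ε * (l : ℝ) ^ 2 * η') - 1) + Real.exp (2 * ε * l) * (l : ℝ) * η') / (4 * τ) :=
    div_le_div_of_nonneg_right (by linarith) (by positivity)
  linarith

theorem cdg_mono (S : ι → Finset V) (y y' : ι → ℝ) (c : ℝ) (h : ∀ i, y' i ≤ c * y i) (u v : V) :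
    cdg S y' u v ≤ c * cdg S y u v := by
  unfold cdg
  rw [Finset.mul_sum]
  exact Finset.sum_le_sum (fun i _ => h i)

theorem nibble_iter (ε τ ηm B : ℝ) (hε : 0 < ε) (hε1 : ε ≤ 1) (hτ : 0 < τ) (hB0 : 0 ≤ B)
    (l : ℕ) (hl : 1 ≤ l)
    (hB : ((l : ℝ) + 1) * ε ^ 2 + errT ε τ l ηm + B * Real.exp (-ε) ≤ B)
    (S : ι → Finset V) (hcard : ∀ i, (S i).card = l) :
    ∀ (s : ℕ) (η : ℝ) (U : Finset V) (y : ι → ℝ), 0 ≤ η →
      η * Real.exp (ε * ((l : ℝ) - 1)) ^ s ≤ ηm →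
      (∀ i, 0 ≤ y i) → (∀ i, y i ≠ 0 → S i ⊆ U) → (∀ v, dg S y v ≤ 1) →
      (∀ u v, u ≠ v → cdg S y u v ≤ η) →
      ∃ M : Finset ι, (∀ i ∈ M, y i ≠ 0) ∧ (∀ i ∈ M, ∀ j ∈ M, i ≠ j → Disjoint (S i) (S j)) ∧
        ∑ i, y i - (Real.exp (-ε) ^ s + B) * U.card ≤ M.card := by
  have hl1 : (1 : ℝ) ≤ l := by exact_mod_cast hl
  have hc1 : 1 ≤ Real.exp (ε * ((l : ℝ) - 1)) := Real.one_le_exp (by nlinarith)
  intro s
  induction s with
  | zero =>
    intro η U y _ _ hy hyU hdeg _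
    refine ⟨∅, by simp, by simp, ?_⟩
    have h1 := sum_y_le S l hl hcard U y hy hyU hdeg
    have h2 : 0 ≤ B * (U.card : ℝ) := mul_nonneg hB0 (Nat.cast_nonneg _)
    simp only [pow_zero, Finset.card_empty, Nat.cast_zero]
    linarith
  | succ s ih =>
    intro η U y hη hηm hy hyU hdeg hco
    have hηle : η ≤ ηm := by
      refine le_trans ?_ hηm
      have : 1 ≤ Real.exp (ε * ((l : ℝ) - 1)) ^ (s + 1) := one_le_pow₀ hc1
      nlinarith
    have hβ : 0 ≤ Real.exp (-ε) ^ s + B := add_nonneg (pow_nonneg (Real.exp_pos _).le _) hB0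
    obtain ⟨M, U', y', hU', hM, hMd, hy'0, hy'le, hy'U, hy'd, hmain⟩ :=
      nibble_step ε τ η (Real.exp (-ε) ^ s + B) hε hε1 hτ hη hβ l hl S hcard U y hy hyU hdeg hco
    obtain ⟨M', hM', hM'd, hM's⟩ := ih (η * Real.exp (ε * ((l : ℝ) - 1))) U' y'
      (mul_nonneg hη (Real.exp_pos _).le)
      (by
        have : η * Real.exp (ε * ((l : ℝ) - 1)) * Real.exp (ε * ((l : ℝ) - 1)) ^ s =
          η * Real.exp (ε * ((l : ℝ) - 1)) ^ (s + 1) := by rw [pow_succ]; ring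
        rw [this]; exact hηm) hy'0 hy'U hy'd
      (by
        intro u v huv
        refine (cdg_mono S y y' _ hy'le u v).trans ?_
        rw [mul_comm]
        exact mul_le_mul_of_nonneg_right (hco u v huv) (Real.exp_pos _).le)
    have hcross : ∀ i ∈ M, ∀ j ∈ M', Disjoint (S i) (S j) := by
      intro i hi j hj
      exact (hM i hi).2.mono_right (hy'U j (hM' j hj))
    have hdisjM : Disjoint M M' := by
      rw [Finset.disjoint_left]
      intro i hi hi'
      have h1 := hcross i hi i hi'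
      rw [disjoint_self] at h1
      have h2 : (S i).card = 0 := by
        rw [Finset.card_eq_zero]; simpa using h1
      rw [hcard i] at h2
      omega
    refine ⟨M ∪ M', ?_, ?_, ?_⟩
    · intro i hi
      rcases Finset.mem_union.mp hi with h | h
      · exact (hM i h).1
      · intro h0
        apply hM' i h
        have h1 := hy'le i
        rw [h0, mul_zero] at h1
        exact le_antisymm h1 (hy'0 i)
    · intro i hi j hj hij
      rcases Finset.mem_union.mp hi with h | h <;> rcases Finset.mem_union.mp hj with h' | h'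
      · exact hMd i h j h' hij
      · exact hcross i h j h'
      · exact (hcross j h' i h).symm
      · exact hM'd i h j h' hij
    · rw [Finset.card_union_of_disjoint hdisjM]
      push_cast
      have herr := errT_mono ε τ hε hτ l η ηm hηle
      have h1 : (((l : ℝ) + 1) * ε ^ 2 + errT ε τ l η + (Real.exp (-ε) ^ s + B) * Real.exp (-ε)) ≤
          Real.exp (-ε) ^ (s + 1) + B := by
        have h0 : Real.exp (-ε) ^ (s + 1) = Real.exp (-ε) ^ s * Real.exp (-ε) := pow_succ _ _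
        rw [h0]
        nlinarith
      have h2 := mul_le_mul_of_nonneg_right h1 (Nat.cast_nonneg (α := ℝ) U.card)
      linarith

theorem exists_eta (ε τ : ℝ) (hε : 0 < ε) (hτ : 0 < τ) (l : ℕ) :
    ∃ η : ℝ, 0 < η ∧ errT ε τ l η ≤ 2 * τ := by
  have hcont : Continuous (fun η : ℝ => errT ε τ l η) := by
    unfold errT
    fun_prop
  have h0 : errT ε τ l 0 = τ := by
    unfold errT
    simp
  have hmem : ∀ᶠ η in nhds (0 : ℝ), errT ε τ l η < 2 * τ := by
    have := hcont.tendsto 0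
    rw [h0] at this
    exact this.eventually_lt_const (by linarith)
  rw [Metric.eventually_nhds_iff] at hmem
  obtain ⟨δ, hδ, hd⟩ := hmem
  refine ⟨δ / 2, by linarith, (hd ?_).le⟩
  rw [Real.dist_eq, sub_zero, abs_of_pos (by linarith)]
  linarith

/-- A weighted form of the Frankl-Rodl-Pippenger theorem. -/
theorem nibble (l : ℕ) (hl : 1 ≤ l) (δ : ℝ) (hδ : 0 < δ) :
    ∃ η : ℝ, 0 < η ∧ ∀ (V ι : Type) [Fintype V] [DecidableEq V] [Fintype ι] [DecidableEq ι]
      (S : ι → Finset V) (y : ι → ℝ), (∀ i, (S i).card = l) → (∀ i, 0 ≤ y i) →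
      (∀ v, dg S y v ≤ 1) → (∀ u v, u ≠ v → cdg S y u v ≤ η) →
      ∃ M : Finset ι, (∀ i ∈ M, y i ≠ 0) ∧ (∀ i ∈ M, ∀ j ∈ M, i ≠ j → Disjoint (S i) (S j)) ∧
        ∑ i, y i - δ * Fintype.card V ≤ M.card := by
  have hl1 : (1 : ℝ) ≤ l := by exact_mod_cast hl
  -- parameters
  set ε : ℝ := min 1 (δ / (4 * ((l : ℝ) + 3))) with hεdef
  have hε : 0 < ε := lt_min one_pos (by positivity)
  have hε1 : ε ≤ 1 := min_le_left _ _
  have hεδ : ε ≤ δ / (4 * ((l : ℝ) + 3)) := min_le_right _ _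
  have hτ : 0 < ε ^ 2 := by positivity
  obtain ⟨ηm, hηm, herr⟩ := exists_eta ε (ε ^ 2) hε hτ l
  set B : ℝ := 2 * ((l : ℝ) + 3) * ε with hBdef
  have hB0 : 0 ≤ B := by positivity
  have hexp : Real.exp (-ε) ≤ 1 - ε / 2 := by
    obtain ⟨h1, _⟩ := one_sub_exp_bounds ε hε.le
    have h2 : Real.exp (-ε) ≤ 1 / (1 + ε) := by
      rw [Real.exp_neg, ← one_div]
      exact one_div_le_one_div_of_le (by linarith) (by linarith [Real.add_one_le_exp ε])
    have h3 : 1 / (1 + ε) ≤ 1 - ε / 2 := by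
      rw [div_le_iff₀ (by linarith)]
      nlinarith
    linarith
  have hB : ((l : ℝ) + 1) * ε ^ 2 + errT ε (ε ^ 2) l ηm + B * Real.exp (-ε) ≤ B := by
    have h1 : B * Real.exp (-ε) ≤ B * (1 - ε / 2) := mul_le_mul_of_nonneg_left hexp hB0
    have h2 : B * (ε / 2) = ((l : ℝ) + 3) * ε ^ 2 := by rw [hBdef]; ring
    nlinarith
  have hBδ : B ≤ δ / 2 := by
    have h1 : 2 * ((l : ℝ) + 3) * ε ≤ 2 * ((l : ℝ) + 3) * (δ / (4 * ((l : ℝ) + 3))) :=
      mul_le_mul_of_nonneg_left hεδ (by positivity)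
    have h2 : 2 * ((l : ℝ) + 3) * (δ / (4 * ((l : ℝ) + 3))) = δ / 2 := by
      field_simp
      ring
    rw [hBdef]
    linarith
  -- number of steps
  have hexp1 : Real.exp (-ε) < 1 := by linarith
  obtain ⟨s, hs⟩ := exists_pow_lt_of_lt_one (show 0 < δ / 2 by linarith) hexp1
  refine ⟨ηm / Real.exp (ε * ((l : ℝ) - 1)) ^ s, by positivity, ?_⟩
  intro V ι _ _ _ _ S y hcard hy hdeg hco
  obtain ⟨M, hM1, hM2, hM3⟩ := nibble_iter ε (ε ^ 2) ηm B hε hε1 hτ hB0 l hl hB S hcard s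
    (ηm / Real.exp (ε * ((l : ℝ) - 1)) ^ s) Finset.univ y (by positivity)
    (by rw [div_mul_cancel₀ _ (by positivity)]) hy (fun i _ => Finset.subset_univ _) hdeg hco
  refine ⟨M, hM1, hM2, ?_⟩
  rw [Finset.card_univ] at hM3
  have h1 : (Real.exp (-ε) ^ s + B) * (Fintype.card V : ℝ) ≤ δ * Fintype.card V :=
    mul_le_mul_of_nonneg_right (by linarith) (Nat.cast_nonneg _)
  linarith

end Nibble

end Pool.Agent.LibTuza
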