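import Mathlib
import Pool.Agent.LibTuza.Graph
import Pool.Agent.LibTuza.Nibble

namespace Pool.Agent.LibTuza

open Finset

section Average

set_option linter.unusedSectionVars false

variable {V : Type*} [Fintype V] [DecidableEq V]

/-- number of `N`-subsets containing a given set -/
theorem count_sup (A : Finset V) (N : ℕ) (hA : A.card ≤ N) :
    (((Finset.univ : Finset V).powersetCard N).filter (fun T => A ⊆ T)).card =
      (Fintype.card V - A.card).choose (N - A.card) := by
  have := Finset.card_filter_powersetCard_subset A Finset.univ N (Finset.subset_univ _) hA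
  rw [Finset.card_univ] at this
  exact this

theorem E2_mem_subset (T : Finset V) (a b : V) (h : s(a, b) ∈ E2 T) : ({a, b} : Finset V) ⊆ T := by
  rw [mem_E2] at h
  intro x hx
  simp only [Finset.mem_insert, Finset.mem_singleton] at hx
  rcases hx with rfl | rfl
  · exact h.1
  · exact h.2.1

theorem choose_ratio (n N : ℕ) (hN : 2 ≤ N) (hn : N ≤ n) :
    (n.choose N : ℝ) * ((N : ℝ) * ((N : ℝ) - 1)) =
      (n : ℝ) * ((n : ℝ) - 1) * ((n - 2).choose (N - 2) : ℝ) := by
  obtain ⟨n', rfl⟩ : ∃ n', n = n' + 2 := ⟨n - 2, by omega⟩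
  obtain ⟨N', rfl⟩ : ∃ N', N = N' + 2 := ⟨N - 2, by omega⟩
  have h1 : (n' + 1 + 1) * (n' + 1).choose (N' + 1) = (n' + 1 + 1).choose (N' + 1 + 1) * (N' + 1 + 1) :=
    Nat.add_one_mul_choose_eq (n' + 1) (N' + 1)
  have h2 : (n' + 1) * n'.choose N' = (n' + 1).choose (N' + 1) * (N' + 1) :=
    Nat.add_one_mul_choose_eq n' N'
  have h1' : ((n' : ℝ) + 1 + 1) * ((n' + 1).choose (N' + 1) : ℝ) =
      ((n' + 1 + 1).choose (N' + 1 + 1) : ℝ) * ((N' : ℝ) + 1 + 1) := by exact_mod_cast h1
  have h2' : ((n' : ℝ) + 1) * (n'.choose N' : ℝ) = ((n' + 1).choose (N' + 1) : ℝ) * ((N' : ℝ) + 1) := by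
    exact_mod_cast h2
  simp only [Nat.add_sub_cancel]
  push_cast
  have e1 : (n' + 2).choose (N' + 2) = (n' + 1 + 1).choose (N' + 1 + 1) := rfl
  rw [e1]
  calc (((n' + 1 + 1).choose (N' + 1 + 1) : ℕ) : ℝ) * (((N' : ℝ) + 2) * ((N' : ℝ) + 2 - 1))
      = ((((n' + 1 + 1).choose (N' + 1 + 1) : ℕ) : ℝ) * ((N' : ℝ) + 1 + 1)) * ((N' : ℝ) + 1) := by ring
    _ = (((n' : ℝ) + 1 + 1) * ((n' + 1).choose (N' + 1) : ℝ)) * ((N' : ℝ) + 1) := by rw [h1']
    _ = ((n' : ℝ) + 1 + 1) * (((n' + 1).choose (N' + 1) : ℝ) * ((N' : ℝ) + 1)) := by ring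
    _ = ((n' : ℝ) + 1 + 1) * (((n' : ℝ) + 1) * (n'.choose N' : ℝ)) := by rw [h2']
    _ = _ := by ring

theorem choose_ratio3 (n N : ℕ) (hN : 3 ≤ N) (hn : N ≤ n) :
    ((n - 3).choose (N - 3) : ℝ) * ((n : ℝ) - 2) = ((N : ℝ) - 2) * ((n - 2).choose (N - 2) : ℝ) := by
  obtain ⟨n', rfl⟩ : ∃ n', n = n' + 3 := ⟨n - 3, by omega⟩
  obtain ⟨N', rfl⟩ : ∃ N', N = N' + 3 := ⟨N - 3, by omega⟩
  have h2 : (n' + 1) * n'.choose N' = (n' + 1).choose (N' + 1) * (N' + 1) :=
    Nat.add_one_mul_choose_eq n' N'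
  have h2' : ((n' : ℝ) + 1) * (n'.choose N' : ℝ) = ((n' + 1).choose (N' + 1) : ℝ) * ((N' : ℝ) + 1) := by
    exact_mod_cast h2
  have e1 : n' + 3 - 3 = n' := by omega
  have e2 : N' + 3 - 3 = N' := by omega
  have e3 : n' + 3 - 2 = n' + 1 := by omega
  have e4 : N' + 3 - 2 = N' + 1 := by omega
  rw [e1, e2, e3, e4]
  push_cast
  linarith

/-- A spread fractional packing of `r`-cliques. -/
theorem spread_packing (G : SimpleGraph V) [DecidableRel G.Adj] (r : ℕ) (hr : 3 ≤ r) (N : ℕ)
    (hN : r ≤ N) (hn : N ≤ Fintype.card V) :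
    ∃ y : Finset V → ℝ, (∀ Q, 0 ≤ y Q) ∧ (∀ Q, y Q ≠ 0 → G.IsNClique r Q) ∧
      (∀ e, ∑ Q with e ∈ E2 Q, y Q ≤ 1) ∧
      (∀ e e', e ≠ e' → ∑ Q with (e ∈ E2 Q ∧ e' ∈ E2 Q), y Q ≤
        ((N : ℝ) - 2) / ((Fintype.card V : ℝ) - 2)) ∧
      (2 / (r : ℝ)) * (((E2 (Finset.univ : Finset V)).filter (fun e => e ∈ G.edgeSet)).card -
        ((r : ℝ) - 2) / (2 * ((r : ℝ) - 1)) * (((N : ℝ) + 1) / ((N : ℝ) - 1) *
          ((Fintype.card V : ℝ) * ((Fintype.card V : ℝ) - 1)))) ≤ ∑ Q, y Q := by
  classical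
  set n := Fintype.card V with hndef
  have hr2 : (3 : ℝ) ≤ r := by exact_mod_cast hr
  have hN3 : (3 : ℝ) ≤ N := by exact_mod_cast hr.trans hN
  have hnN : (N : ℝ) ≤ n := by exact_mod_cast hn
  have hc : ∀ T : Finset V, ∃ y : Finset V → ℝ, (∀ Q, 0 ≤ y Q) ∧
      (∀ Q, y Q ≠ 0 → Q ⊆ T ∧ G.IsNClique r Q) ∧
      (∀ e, ∑ Q with e ∈ E2 Q, y Q ≤ 1) ∧
      (2 / (r : ℝ)) * (((E2 T).filter (fun e => e ∈ G.edgeSet)).card -
        ((r : ℝ) - 2) / (2 * ((r : ℝ) - 1)) * ((T.card : ℝ) ^ 2 + T.card)) ≤ ∑ Q, y Q :=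
    fun T => local_packing G r (by omega) T
  choose Y hY0 hYs hYd hYt using hc
  set P := (Finset.univ : Finset V).powersetCard N with hP
  set c : ℝ := ((n - 2).choose (N - 2) : ℝ) with hcdef
  have hcpos : 0 < c := by
    rw [hcdef]
    exact_mod_cast Nat.choose_pos (by omega)
  refine ⟨fun Q => (∑ T ∈ P, Y T Q) / c, ?_, ?_, ?_, ?_, ?_⟩
  · intro Q
    exact div_nonneg (Finset.sum_nonneg (fun T _ => hY0 T Q)) hcpos.le
  · intro Q hQ
    have h1 : ∑ T ∈ P, Y T Q ≠ 0 := by
      intro h0
      apply hQ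
      simp only [h0, zero_div]
    obtain ⟨T, _, hT⟩ := Finset.exists_ne_zero_of_sum_ne_zero h1
    exact (hYs T Q hT).2
  · -- degrees
    intro e
    simp only
    rw [← Finset.sum_div, div_le_one hcpos, Finset.sum_comm]
    induction e using Sym2.ind with
    | _ a b =>
      by_cases hab : a = b
      · have : ∀ T ∈ P, ∑ Q with s(a, b) ∈ E2 Q, Y T Q = 0 := by
          intro T _
          refine Finset.sum_eq_zero (fun Q hQ => ?_)
          have := (Finset.mem_filter.mp hQ).2
          rw [mem_E2] at this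
          exact absurd hab this.2.2
        rw [Finset.sum_eq_zero this]
        exact hcpos.le
      · have h1 : ∀ T ∈ P, ∑ Q with s(a, b) ∈ E2 Q, Y T Q ≤
            if ({a, b} : Finset V) ⊆ T then (1 : ℝ) else 0 := by
          intro T _
          split_ifs with hT
          · exact hYd T s(a, b)
          · refine le_of_eq (Finset.sum_eq_zero (fun Q hQ => ?_))
            by_contra h0
            exact hT ((E2_mem_subset Q a b (Finset.mem_filter.mp hQ).2).trans (hYs T Q h0).1)
        refine (Finset.sum_le_sum h1).trans ?_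
        rw [← Finset.sum_filter, Finset.sum_const, nsmul_eq_mul, mul_one]
        have hcard2 : ({a, b} : Finset V).card = 2 := Finset.card_pair hab
        have := count_sup ({a, b} : Finset V) N (by omega)
        rw [hcard2] at this
        rw [hP, this]
  · -- codegrees
    intro e e' hee'
    simp only
    rw [← Finset.sum_div, div_le_iff₀ hcpos, Finset.sum_comm]
    have hn2 : (0 : ℝ) < (n : ℝ) - 2 := by linarith
    have hrhs : 0 ≤ ((N : ℝ) - 2) / ((n : ℝ) - 2) * c :=
      mul_nonneg (div_nonneg (by linarith) hn2.le) hcpos.le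
    -- find a three element set
    by_cases hex : ∃ A : Finset V, A.card = 3 ∧ ∀ Q : Finset V, e ∈ E2 Q → e' ∈ E2 Q → A ⊆ Q
    · obtain ⟨A, hA3, hA⟩ := hex
      have h1 : ∀ T ∈ P, ∑ Q with (e ∈ E2 Q ∧ e' ∈ E2 Q), Y T Q ≤
          if A ⊆ T then (1 : ℝ) else 0 := by
        intro T _
        split_ifs with hT
        · refine le_trans ?_ (hYd T e)
          refine Finset.sum_le_sum_of_subset_of_nonneg ?_ (fun Q _ _ => hY0 T Q)
          intro Q hQ
          rw [Finset.mem_filter] at hQ ⊢
          exact ⟨hQ.1, hQ.2.1⟩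
        · refine le_of_eq (Finset.sum_eq_zero (fun Q hQ => ?_))
          by_contra h0
          have hQ' := (Finset.mem_filter.mp hQ).2
          exact hT ((hA Q hQ'.1 hQ'.2).trans (hYs T Q h0).1)
      refine (Finset.sum_le_sum h1).trans ?_
      rw [← Finset.sum_filter, Finset.sum_const, nsmul_eq_mul, mul_one]
      have := count_sup A N (by omega)
      rw [hA3] at this
      rw [hP, this]
      have h3 := choose_ratio3 n N (by omega) hn
      rw [div_mul_eq_mul_div, le_div_iff₀ hn2, hcdef]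
      exact h3.le
    · have h1 : ∀ T ∈ P, ∑ Q with (e ∈ E2 Q ∧ e' ∈ E2 Q), Y T Q = 0 := by
        intro T _
        refine Finset.sum_eq_zero (fun Q hQ => ?_)
        exfalso
        apply hex
        have hQ' := (Finset.mem_filter.mp hQ).2
        clear hex hQ
        induction e using Sym2.ind with
        | _ a b =>
          induction e' using Sym2.ind with
          | _ x z =>
            rw [mem_E2, mem_E2] at hQ'
            obtain ⟨⟨_, _, hab⟩, ⟨_, _, hxz⟩⟩ := hQ'
            -- one of x, z is not in {a, b}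
            by_cases hx : x = a ∨ x = b
            · have hz : z ≠ a ∧ z ≠ b := by
                constructor
                · rintro rfl
                  rcases hx with rfl | rfl
                  · exact hxz rfl
                  · exact hee' Sym2.eq_swap
                · rintro rfl
                  rcases hx with rfl | rfl
                  · exact hee' rfl
                  · exact hxz rfl
              refine ⟨{a, b, z}, Finset.card_eq_three.mpr ⟨a, b, z, hab, hz.1.symm, hz.2.symm, rfl⟩, ?_⟩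
              intro Q' h1 h2
              rw [mem_E2] at h1 h2
              intro w hw
              simp only [Finset.mem_insert, Finset.mem_singleton] at hw
              rcases hw with rfl | rfl | rfl
              · exact h1.1
              · exact h1.2.1
              · exact h2.2.1
            · push Not at hx
              refine ⟨{a, b, x}, Finset.card_eq_three.mpr ⟨a, b, x, hab, hx.1.symm, hx.2.symm, rfl⟩, ?_⟩
              intro Q' h1 h2
              rw [mem_E2] at h1 h2
              intro w hw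
              simp only [Finset.mem_insert, Finset.mem_singleton] at hw
              rcases hw with rfl | rfl | rfl
              · exact h1.1
              · exact h1.2.1
              · exact h2.1
      rw [Finset.sum_eq_zero h1]
      exact hrhs
  · -- total weight
    simp only
    rw [← Finset.sum_div, le_div_iff₀ hcpos, Finset.sum_comm]
    set EG := (E2 (Finset.univ : Finset V)).filter (fun e => e ∈ G.edgeSet) with hEG
    have hsumE : ∑ T ∈ P, (((E2 T).filter (fun e => e ∈ G.edgeSet)).card : ℝ) = EG.card * c := by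
      have h1 : ∀ T ∈ P, (((E2 T).filter (fun e => e ∈ G.edgeSet)).card : ℝ) =
          ∑ e ∈ EG, if e ∈ E2 T then (1 : ℝ) else 0 := by
        intro T _
        rw [← Finset.sum_filter, Finset.sum_const, nsmul_eq_mul, mul_one]
        congr 2
        ext e
        simp only [hEG, Finset.mem_filter]
        constructor
        · rintro ⟨h2, h3⟩
          exact ⟨⟨E2_mono (Finset.subset_univ T) h2, h3⟩, h2⟩
        · rintro ⟨⟨_, h3⟩, h2⟩
          exact ⟨h2, h3⟩
      rw [Finset.sum_congr rfl h1, Finset.sum_comm]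
      have h2 : ∀ e ∈ EG, ∑ T ∈ P, (if e ∈ E2 T then (1 : ℝ) else 0) = c := by
        intro e he
        rw [← Finset.sum_filter, Finset.sum_const, nsmul_eq_mul, mul_one]
        have he' := (Finset.mem_filter.mp he).1
        induction e using Sym2.ind with
        | _ a b =>
          rw [mem_E2] at he'
          have hab := he'.2.2
          have hcard2 : ({a, b} : Finset V).card = 2 := Finset.card_pair hab
          have h3 := count_sup ({a, b} : Finset V) N (by omega)
          rw [hcard2] at h3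
          rw [hcdef, ← h3]
          congr 2
          ext T
          simp only [Finset.mem_filter]
          refine and_congr_right (fun _ => ?_)
          constructor
          · exact E2_mem_subset T a b
          · intro h4
            rw [mem_E2]
            exact ⟨h4 (by simp), h4 (by simp), hab⟩
      rw [Finset.sum_congr rfl h2, Finset.sum_const, nsmul_eq_mul]
    have hPcard : (P.card : ℝ) = (n.choose N : ℝ) := by
      rw [hP, Finset.card_powersetCard, Finset.card_univ]
    have htot : ∑ T ∈ P, ((2 / (r : ℝ)) * (((E2 T).filter (fun e => e ∈ G.edgeSet)).card -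
        ((r : ℝ) - 2) / (2 * ((r : ℝ) - 1)) * ((T.card : ℝ) ^ 2 + T.card))) ≤
        ∑ T ∈ P, ∑ Q, Y T Q := Finset.sum_le_sum (fun T _ => hYt T)
    refine le_trans (le_of_eq ?_) htot
    have h5 : ∑ T ∈ P, ((2 / (r : ℝ)) * (((E2 T).filter (fun e => e ∈ G.edgeSet)).card -
        ((r : ℝ) - 2) / (2 * ((r : ℝ) - 1)) * ((T.card : ℝ) ^ 2 + T.card))) =
        ∑ T ∈ P, ((2 / (r : ℝ)) * (((E2 T).filter (fun e => e ∈ G.edgeSet)).card -
        ((r : ℝ) - 2) / (2 * ((r : ℝ) - 1)) * ((N : ℝ) ^ 2 + N))) := by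
      refine Finset.sum_congr rfl (fun T hT => ?_)
      rw [(Finset.mem_powersetCard.mp hT).2]
    rw [h5, ← Finset.mul_sum, Finset.sum_sub_distrib, hsumE, Finset.sum_const, nsmul_eq_mul, hPcard]
    have h6 := choose_ratio n N (by omega) hn
    rw [← hcdef] at h6
    have hN1 : (N : ℝ) - 1 ≠ 0 := by
      intro h0; linarith
    have h7 : (n.choose N : ℝ) * ((N : ℝ) ^ 2 + N) =
        ((N : ℝ) + 1) / ((N : ℝ) - 1) * ((n : ℝ) * ((n : ℝ) - 1)) * c := by
      rw [div_mul_eq_mul_div, div_mul_eq_mul_div, eq_div_iff hN1]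
      calc (n.choose N : ℝ) * ((N : ℝ) ^ 2 + N) * ((N : ℝ) - 1)
          = ((N : ℝ) + 1) * ((n.choose N : ℝ) * ((N : ℝ) * ((N : ℝ) - 1))) := by ring
        _ = ((N : ℝ) + 1) * ((n : ℝ) * ((n : ℝ) - 1) * c) := by rw [h6]
        _ = _ := by ring
    have h8 : (n.choose N : ℝ) * (((r : ℝ) - 2) / (2 * ((r : ℝ) - 1)) * ((N : ℝ) ^ 2 + N)) =
        ((r : ℝ) - 2) / (2 * ((r : ℝ) - 1)) * ((n.choose N : ℝ) * ((N : ℝ) ^ 2 + N)) := by ring
    rw [h8, h7]
    ring

end Average

end Pool.Agent.LibTuza
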